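import Pool.Agent.H93.BL.Stmt

/-!
# Elementary algebra for polygonal billiards
-/

namespace Pool.Agent.H93.BL

open MeasureTheory Set

/-! ### `ip` and `cr` -/

lemma ip_comm (a b : ℂ) : ip a b = ip b a := by unfold ip; ring
lemma ip_add_left (a b c : ℂ) : ip (a + b) c = ip a c + ip b c := by
  simp only [ip, Complex.add_re, Complex.add_im]; ring
lemma ip_add_right (a b c : ℂ) : ip a (b + c) = ip a b + ip a c := by
  simp only [ip, Complex.add_re, Complex.add_im]; ring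
lemma ip_sub_left (a b c : ℂ) : ip (a - b) c = ip a c - ip b c := by
  simp only [ip, Complex.sub_re, Complex.sub_im]; ring
lemma ip_sub_right (a b c : ℂ) : ip a (b - c) = ip a b - ip a c := by
  simp only [ip, Complex.sub_re, Complex.sub_im]; ring
lemma ip_neg_left (a b : ℂ) : ip (-a) b = -ip a b := by
  simp only [ip, Complex.neg_re, Complex.neg_im]; ring
lemma ip_neg_right (a b : ℂ) : ip a (-b) = -ip a b := by
  simp only [ip, Complex.neg_re, Complex.neg_im]; ring
lemma ip_zero_left (b : ℂ) : ip 0 b = 0 := by simp [ip]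
lemma ip_zero_right (b : ℂ) : ip b 0 = 0 := by simp [ip]
lemma ip_smul_left (t : ℝ) (a b : ℂ) : ip ((t : ℂ) * a) b = t * ip a b := by
  simp only [ip, Complex.mul_re, Complex.mul_im, Complex.ofReal_re, Complex.ofReal_im]; ring
lemma ip_smul_right (t : ℝ) (a b : ℂ) : ip a ((t : ℂ) * b) = t * ip a b := by
  simp only [ip, Complex.mul_re, Complex.mul_im, Complex.ofReal_re, Complex.ofReal_im]; ring
lemma cr_add_left (a b c : ℂ) : cr (a + b) c = cr a c + cr b c := by
  simp only [cr, Complex.add_re, Complex.add_im]; ring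
lemma cr_add_right (a b c : ℂ) : cr a (b + c) = cr a b + cr a c := by
  simp only [cr, Complex.add_re, Complex.add_im]; ring
lemma cr_sub_left (a b c : ℂ) : cr (a - b) c = cr a c - cr b c := by
  simp only [cr, Complex.sub_re, Complex.sub_im]; ring
lemma cr_sub_right (a b c : ℂ) : cr a (b - c) = cr a b - cr a c := by
  simp only [cr, Complex.sub_re, Complex.sub_im]; ring
lemma cr_neg_left (a b : ℂ) : cr (-a) b = -cr a b := by
  simp only [cr, Complex.neg_re, Complex.neg_im]; ring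
lemma cr_neg_right (a b : ℂ) : cr a (-b) = -cr a b := by
  simp only [cr, Complex.neg_re, Complex.neg_im]; ring
lemma cr_zero_left (b : ℂ) : cr 0 b = 0 := by simp [cr]
lemma cr_zero_right (b : ℂ) : cr b 0 = 0 := by simp [cr]
lemma cr_smul_left (t : ℝ) (a b : ℂ) : cr ((t : ℂ) * a) b = t * cr a b := by
  simp only [cr, Complex.mul_re, Complex.mul_im, Complex.ofReal_re, Complex.ofReal_im]; ring
lemma cr_smul_right (t : ℝ) (a b : ℂ) : cr a ((t : ℂ) * b) = t * cr a b := by
  simp only [cr, Complex.mul_re, Complex.mul_im, Complex.ofReal_re, Complex.ofReal_im]; ring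
lemma cr_self (a : ℂ) : cr a a = 0 := by unfold cr; ring
lemma cr_swap (a b : ℂ) : cr a b = -cr b a := by unfold cr; ring

lemma ip_self (a : ℂ) : ip a a = ‖a‖ ^ 2 := by
  rw [Complex.sq_norm, Complex.normSq_apply]; rfl

lemma cr_I_mul (a b : ℂ) : cr a (Complex.I * b) = ip a b := by
  simp only [cr, ip, Complex.mul_re, Complex.mul_im, Complex.I_re, Complex.I_im]; ring
lemma ip_I_mul (a b : ℂ) : ip a (Complex.I * b) = cr b a := by
  simp only [cr, ip, Complex.mul_re, Complex.mul_im, Complex.I_re, Complex.I_im]; ring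
lemma I_mul_cr (a b : ℂ) : cr (Complex.I * a) b = -ip a b := by
  simp only [cr, ip, Complex.mul_re, Complex.mul_im, Complex.I_re, Complex.I_im]; ring
lemma I_mul_ip (a b : ℂ) : ip (Complex.I * a) b = cr a b := by
  simp only [cr, ip, Complex.mul_re, Complex.mul_im, Complex.I_re, Complex.I_im]; ring

lemma ip_sq_add_cr_sq (a b : ℂ) : ip a b ^ 2 + cr a b ^ 2 = ‖a‖ ^ 2 * ‖b‖ ^ 2 := by
  rw [Complex.sq_norm, Complex.sq_norm, Complex.normSq_apply, Complex.normSq_apply]
  simp only [ip, cr]; ring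

lemma abs_ip_le (a b : ℂ) : |ip a b| ≤ ‖a‖ * ‖b‖ := by
  apply abs_le_of_sq_le_sq _ (by positivity)
  rw [mul_pow, ← ip_sq_add_cr_sq]; nlinarith [sq_nonneg (cr a b)]

lemma abs_cr_le (a b : ℂ) : |cr a b| ≤ ‖a‖ * ‖b‖ := by
  apply abs_le_of_sq_le_sq _ (by positivity)
  rw [mul_pow, ← ip_sq_add_cr_sq]; nlinarith [sq_nonneg (ip a b)]

lemma ip_eq_re (a b : ℂ) : ip a b = (a * (starRingEnd ℂ) b).re := by
  simp only [ip, Complex.mul_re, Complex.conj_re, Complex.conj_im]; ring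

lemma cr_eq_im (a b : ℂ) : cr a b = ((starRingEnd ℂ) a * b).im := by
  simp only [cr, Complex.mul_im, Complex.conj_re, Complex.conj_im]; ring

/-- decomposition of a vector along a unit vector and its normal -/
lemma decomp (u v : ℂ) (hu : ‖u‖ = 1) :
    v = (ip v u : ℂ) * u + (cr u v : ℂ) * (Complex.I * u) := by
  have h1 : u.re * u.re + u.im * u.im = 1 := by
    have := Complex.sq_norm u
    rw [hu, Complex.normSq_apply] at this; linarith
  apply Complex.ext
  · simp only [ip, cr, Complex.add_re, Complex.mul_re, Complex.mul_im, Complex.ofReal_re,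
      Complex.ofReal_im, Complex.I_re, Complex.I_im]
    linear_combination (-v.re) * h1
  · simp only [ip, cr, Complex.add_im, Complex.mul_re, Complex.mul_im, Complex.ofReal_re,
      Complex.ofReal_im, Complex.I_re, Complex.I_im]
    linear_combination (-v.im) * h1

lemma ext_ip_cr (u a b : ℂ) (hu : ‖u‖ = 1) (h1 : ip a u = ip b u) (h2 : cr u a = cr u b) :
    a = b := by
  rw [decomp u a hu, decomp u b hu, h1, h2]

lemma continuous_ip_left (b : ℂ) : Continuous fun a => ip a b := by unfold ip; fun_prop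
lemma continuous_cr_right (a : ℂ) : Continuous fun b => cr a b := by unfold cr; fun_prop
lemma continuous_cr_left (b : ℂ) : Continuous fun a => cr a b := by unfold cr; fun_prop

namespace Polygon

variable {ι : Type} (P : Polygon ι)

lemma len_pos (i : ι) : 0 < P.len i := by
  unfold len; rw [norm_pos_iff, sub_ne_zero]; exact (P.ne i).symm

lemma len_ne (i : ι) : (P.len i : ℂ) ≠ 0 := by
  exact_mod_cast (P.len_pos i).ne'

lemma norm_u (i : ι) : ‖P.u i‖ = 1 := by
  unfold u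
  rw [norm_div, Complex.norm_real, Real.norm_of_nonneg (P.len_pos i).le]
  exact div_self (P.len_pos i).ne'

lemma u_ne (i : ι) : P.u i ≠ 0 := by
  intro h; have := P.norm_u i; rw [h, norm_zero] at this; exact zero_ne_one this

lemma norm_n (i : ι) : ‖P.n i‖ = 1 := by
  unfold n; rw [norm_mul, Complex.norm_I, one_mul, P.norm_u i]

lemma q_eq (i : ι) : P.q i = P.p i + (P.len i : ℂ) * P.u i := by
  unfold u; rw [mul_div_cancel₀ _ (P.len_ne i)]; ring

lemma q_sub (i : ι) : P.q i - P.p i = (P.len i : ℂ) * P.u i := by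
  rw [P.q_eq i]; ring

lemma u_mul_conj (i : ι) : P.u i * (starRingEnd ℂ) (P.u i) = 1 := by
  rw [Complex.mul_conj, Complex.normSq_eq_norm_sq, P.norm_u i]; norm_num

lemma mem_openSegment_iff (i : ι) (x : ℂ) : x ∈ openSegment ℝ (P.p i) (P.q i) ↔
    ∃ s : ℝ, 0 < s ∧ s < P.len i ∧ x = P.p i + (s : ℂ) * P.u i := by
  rw [openSegment_eq_image']
  constructor
  · rintro ⟨θ, ⟨h0, h1⟩, rfl⟩
    refine ⟨θ * P.len i, mul_pos h0 (P.len_pos i), by nlinarith [P.len_pos i], ?_⟩
    simp only [P.q_sub i, Complex.real_smul]; push_cast; ring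
  · rintro ⟨s, h0, h1, rfl⟩
    refine ⟨s / P.len i, ⟨div_pos h0 (P.len_pos i), (div_lt_one (P.len_pos i)).2 h1⟩, ?_⟩
    simp only [P.q_sub i, Complex.real_smul]; push_cast
    have := P.len_ne i
    field_simp

lemma mem_segment_iff (i : ι) (x : ℂ) : x ∈ segment ℝ (P.p i) (P.q i) ↔
    ∃ s : ℝ, 0 ≤ s ∧ s ≤ P.len i ∧ x = P.p i + (s : ℂ) * P.u i := by
  rw [segment_eq_image']
  constructor
  · rintro ⟨θ, ⟨h0, h1⟩, rfl⟩
    refine ⟨θ * P.len i, mul_nonneg h0 (P.len_pos i).le, by nlinarith [P.len_pos i], ?_⟩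
    simp only [P.q_sub i, Complex.real_smul]; push_cast; ring
  · rintro ⟨s, h0, h1, rfl⟩
    refine ⟨s / P.len i, ⟨div_nonneg h0 (P.len_pos i).le, (div_le_one (P.len_pos i)).2 h1⟩, ?_⟩
    simp only [P.q_sub i, Complex.real_smul]; push_cast
    have := P.len_ne i
    field_simp

lemma ip_u_n (i : ι) : ip (P.u i) (P.n i) = 0 := by
  unfold n; rw [ip_I_mul, cr_self]

lemma ip_n_n (i : ι) : ip (P.n i) (P.n i) = 1 := by rw [ip_self, P.norm_n i]; norm_num

lemma ip_u_u (i : ι) : ip (P.u i) (P.u i) = 1 := by rw [ip_self, P.norm_u i]; norm_num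

lemma ip_n (i : ι) (v : ℂ) : ip v (P.n i) = cr (P.u i) v := by unfold n; rw [ip_I_mul]

lemma cr_u (i : ι) (v : ℂ) : cr v (P.u i) = -ip v (P.n i) := by rw [P.ip_n, cr_swap]

lemma refl_refl (i : ι) (v : ℂ) : P.refl i (P.refl i v) = v := by
  unfold refl
  rw [map_mul, map_pow, Complex.conj_conj]
  have h := P.u_mul_conj i
  calc P.u i ^ 2 * ((starRingEnd ℂ) (P.u i) ^ 2 * v)
      = (P.u i * (starRingEnd ℂ) (P.u i)) ^ 2 * v := by ring
    _ = v := by rw [h]; ring

lemma norm_refl (i : ι) (v : ℂ) : ‖P.refl i v‖ = ‖v‖ := by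
  unfold refl; rw [norm_mul, norm_pow, P.norm_u i, Complex.norm_conj]; ring

lemma refl_add (i : ι) (v w : ℂ) : P.refl i (v + w) = P.refl i v + P.refl i w := by
  unfold refl; rw [map_add]; ring

lemma refl_sub (i : ι) (v w : ℂ) : P.refl i (v - w) = P.refl i v - P.refl i w := by
  unfold refl; rw [map_sub]; ring

lemma refl_neg (i : ι) (v : ℂ) : P.refl i (-v) = -P.refl i v := by
  unfold refl; rw [map_neg]; ring

lemma refl_smul (i : ι) (t : ℝ) (v : ℂ) : P.refl i ((t : ℂ) * v) = (t : ℂ) * P.refl i v := by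
  unfold refl; rw [map_mul, Complex.conj_ofReal]; ring

lemma refl_injective (i : ι) : Function.Injective (P.refl i) :=
  Function.LeftInverse.injective (P.refl_refl i)

lemma refl_u (i : ι) : P.refl i (P.u i) = P.u i := by
  unfold refl
  have h := P.u_mul_conj i
  calc P.u i ^ 2 * (starRingEnd ℂ) (P.u i) = P.u i * (P.u i * (starRingEnd ℂ) (P.u i)) := by ring
    _ = P.u i := by rw [h]; ring

lemma refl_n (i : ι) : P.refl i (P.n i) = -P.n i := by
  unfold refl n
  rw [map_mul, Complex.conj_I]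
  have h := P.u_mul_conj i
  calc P.u i ^ 2 * (-Complex.I * (starRingEnd ℂ) (P.u i))
      = -(Complex.I * P.u i) * (P.u i * (starRingEnd ℂ) (P.u i)) := by ring
    _ = -(Complex.I * P.u i) := by rw [h]; ring

lemma refl_eq (i : ι) (v : ℂ) :
    P.refl i v = v - ((2 * ip v (P.n i) : ℝ) : ℂ) * P.n i := by
  have h := decomp (P.u i) v (P.norm_u i)
  have hn : Complex.I * P.u i = P.n i := rfl
  rw [hn, ← P.ip_n i] at h
  have h2 : P.refl i v = (ip v (P.u i) : ℂ) * P.u i - (ip v (P.n i) : ℂ) * P.n i := by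
    conv_lhs => rw [h]
    rw [P.refl_add, P.refl_smul, P.refl_smul, P.refl_u, P.refl_n]; ring
  rw [h2]
  conv_rhs => rw [h]
  have e1 : ip ((ip v (P.u i) : ℂ) * P.u i + (ip v (P.n i) : ℂ) * P.n i) (P.n i)
      = ip v (P.n i) := by rw [← h]
  rw [e1]; push_cast; ring

lemma ip_refl_n (i : ι) (v : ℂ) : ip (P.refl i v) (P.n i) = -ip v (P.n i) := by
  rw [P.refl_eq, ip_sub_left, ip_smul_left, P.ip_n_n]; ring

lemma ip_refl_u (i : ι) (v : ℂ) : ip (P.refl i v) (P.u i) = ip v (P.u i) := by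
  rw [P.refl_eq, ip_sub_left, ip_smul_left, ip_comm (P.n i), P.ip_u_n]; ring

/-- Affine reflection in the line of the side `i`. -/
noncomputable def aff (i : ι) (y : ℂ) : ℂ := P.p i + P.u i ^ 2 * (starRingEnd ℂ) (y - P.p i)

lemma aff_eq (i : ι) (y : ℂ) : P.aff i y = P.p i + P.refl i (y - P.p i) := rfl

lemma aff_line (i : ι) (s : ℝ) :
    P.aff i (P.p i + (s : ℂ) * P.u i) = P.p i + (s : ℂ) * P.u i := by
  rw [P.aff_eq, add_sub_cancel_left, P.refl_smul, P.refl_u]

lemma aff_aff (i : ι) (y : ℂ) : P.aff i (P.aff i y) = y := by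
  rw [P.aff_eq, P.aff_eq, add_sub_cancel_left, P.refl_refl]; ring

lemma aff_injective (i : ι) : Function.Injective (P.aff i) :=
  Function.LeftInverse.injective (P.aff_aff i)

lemma aff_add (i : ι) (y v : ℂ) : P.aff i (y + v) = P.aff i y + P.refl i v := by
  rw [P.aff_eq, P.aff_eq, show y + v - P.p i = (y - P.p i) + v by ring, P.refl_add]; ring

lemma aff_add_smul (i : ι) (y : ℂ) (t : ℝ) (v : ℂ) :
    P.aff i (y + (t : ℂ) * v) = P.aff i y + (t : ℂ) * P.refl i v := by
  rw [P.aff_add, P.refl_smul]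

lemma aff_of_mem_segment (i : ι) (x : ℂ) (hx : x ∈ segment ℝ (P.p i) (P.q i)) :
    P.aff i x = x := by
  obtain ⟨s, -, -, rfl⟩ := (P.mem_segment_iff i x).1 hx
  exact P.aff_line i s

lemma cr_refl_u (i : ι) (v : ℂ) : cr (P.refl i v) (P.u i) = -cr v (P.u i) := by
  rw [P.cr_u, P.cr_u, P.ip_refl_n]

/-- Change of the transversal coordinate at a reflection. -/
lemma cr_refl_line (i : ι) (v : ℂ) (s : ℝ) :
    cr (P.refl i v) (P.p i + (s : ℂ) * P.u i) + cr v (P.p i + (s : ℂ) * P.u i) =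
      cr (P.refl i v) (P.p i) + cr v (P.p i) := by
  rw [cr_add_right, cr_add_right, cr_smul_right, cr_smul_right, P.cr_refl_u]; ring

lemma ip_line (i : ι) (s s' : ℝ) :
    ip ((P.p i + (s : ℂ) * P.u i) - (P.p i + (s' : ℂ) * P.u i)) (P.n i) = 0 := by
  rw [show (P.p i + (s : ℂ) * P.u i) - (P.p i + (s' : ℂ) * P.u i)
      = ((s - s' : ℝ) : ℂ) * P.u i by push_cast; ring, ip_smul_left, P.ip_u_n, mul_zero]

/-- A reversed side has opposite direction. -/
lemma u_reversed {i j : ι} (h1 : P.p j = P.q i) (h2 : P.q j = P.p i) : P.u j = -P.u i := by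
  have hl : P.len j = P.len i := by
    unfold len; rw [h1, h2, norm_sub_rev]
  unfold u; rw [hl, h1, h2]; ring

lemma n_reversed {i j : ι} (h1 : P.p j = P.q i) (h2 : P.q j = P.p i) : P.n j = -P.n i := by
  unfold n; rw [P.u_reversed h1 h2]; ring

lemma openSegment_reversed {i j : ι} (h1 : P.p j = P.q i) (h2 : P.q j = P.p i) :
    openSegment ℝ (P.p j) (P.q j) = openSegment ℝ (P.p i) (P.q i) := by
  rw [h1, h2, openSegment_symm]

/-! ### phase points -/

lemma norm_dir (z : ι × ℝ × ℝ) : ‖P.dir z‖ = 1 := by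
  unfold dir; rw [norm_mul, P.norm_n, Complex.norm_exp_ofReal_mul_I, one_mul]

lemma dir_eq (z : ι × ℝ × ℝ) :
    P.dir z = (Real.cos z.2.2 : ℂ) * P.n z.1 - (Real.sin z.2.2 : ℂ) * P.u z.1 := by
  unfold dir n
  rw [Complex.exp_mul_I, ← Complex.ofReal_cos, ← Complex.ofReal_sin]
  have : Complex.I * Complex.I = -1 := Complex.I_mul_I
  linear_combination (P.u z.1 * (Real.sin z.2.2 : ℂ)) * this

lemma ip_dir_n (z : ι × ℝ × ℝ) : ip (P.dir z) (P.n z.1) = Real.cos z.2.2 := by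
  rw [P.dir_eq, ip_sub_left, ip_smul_left, ip_smul_left, P.ip_n_n, P.ip_u_n]; ring

lemma ip_dir_u (z : ι × ℝ × ℝ) : ip (P.dir z) (P.u z.1) = -Real.sin z.2.2 := by
  rw [P.dir_eq, ip_sub_left, ip_smul_left, ip_smul_left, ip_comm (P.n z.1), P.ip_u_n, P.ip_u_u]
  ring

lemma refl_dir (i : ι) (s φ : ℝ) : P.refl i (P.dir (i, s, φ)) = -P.dir (i, s, -φ) := by
  rw [P.dir_eq, P.dir_eq, P.refl_sub, P.refl_smul, P.refl_smul, P.refl_u, P.refl_n]
  simp only [Real.cos_neg, Real.sin_neg]; push_cast; ring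

lemma pos_mem {z : ι × ℝ × ℝ} (hz : P.Phase z) :
    P.pos z ∈ openSegment ℝ (P.p z.1) (P.q z.1) :=
  (P.mem_openSegment_iff z.1 _).2 ⟨z.2.1, hz.1, hz.2.1, rfl⟩

lemma cos_pos_of_phase {z : ι × ℝ × ℝ} (hz : P.Phase z) : 0 < Real.cos z.2.2 :=
  Real.cos_pos_of_mem_Ioo ⟨hz.2.2.1, hz.2.2.2⟩

lemma phase_rev {i : ι} {s φ : ℝ} (hz : P.Phase (i, s, φ)) : P.Phase (i, s, -φ) :=
  ⟨hz.1, hz.2.1, by simpa using neg_lt_neg hz.2.2.2, by
    have := hz.2.2.1; simp only at this ⊢; linarith⟩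

/-- An affine function which is nonnegative on a side and positive at some inner point of it is
positive at all inner points. -/
lemma affine_pos (w : ℂ) (ω : ℝ) (j : ι)
    (h : ∀ x ∈ segment ℝ (P.p j) (P.q j), 0 ≤ ip (w + (ω : ℂ) * (Complex.I * x)) (P.n j))
    (h' : ∃ x ∈ openSegment ℝ (P.p j) (P.q j), 0 < ip (w + (ω : ℂ) * (Complex.I * x)) (P.n j)) :
    ∀ x ∈ openSegment ℝ (P.p j) (P.q j), 0 < ip (w + (ω : ℂ) * (Complex.I * x)) (P.n j) := by
  have key : ∀ s : ℝ, ip (w + (ω : ℂ) * (Complex.I * (P.p j + (s : ℂ) * P.u j))) (P.n j) =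
      ip (w + (ω : ℂ) * (Complex.I * P.p j)) (P.n j) + s * ω := by
    intro s
    rw [show w + (ω : ℂ) * (Complex.I * (P.p j + (s : ℂ) * P.u j))
        = (w + (ω : ℂ) * (Complex.I * P.p j)) + ((s * ω : ℝ) : ℂ) * P.n j by
      unfold n; push_cast; ring, ip_add_left, ip_smul_left, P.ip_n_n]; ring
  have h0 : 0 ≤ ip (w + (ω : ℂ) * (Complex.I * P.p j)) (P.n j) :=
    h _ (left_mem_segment ℝ _ _)
  have h1 : 0 ≤ ip (w + (ω : ℂ) * (Complex.I * P.p j)) (P.n j) + P.len j * ω := by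
    rw [← key]
    exact h _ ((P.mem_segment_iff j _).2 ⟨P.len j, (P.len_pos j).le, le_refl _, rfl⟩)
  obtain ⟨x0, hx0, hpos⟩ := h'
  obtain ⟨s0, hs0, hs0', rfl⟩ := (P.mem_openSegment_iff j x0).1 hx0
  rw [key] at hpos
  intro x hx
  obtain ⟨s, hs, hs', rfl⟩ := (P.mem_openSegment_iff j x).1 hx
  rw [key]
  rcases le_or_gt 0 ω with hω | hω
  · rcases eq_or_lt_of_le hω with h2 | h2
    · rw [← h2] at hpos ⊢; linarith
    · have := mul_pos hs h2; linarith
  · have h3 : (P.len j - s) * ω < 0 := mul_neg_of_pos_of_neg (by linarith) hω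
    nlinarith

/-- A special case of the rule `field`: an infinitesimal rigid motion points into the table along
all sides outside `E`. -/
theorem Good.killing {P : Polygon ι} (E : Set ι) (w : ℂ) (ω : ℝ)
    (h : ∀ j, j ∉ E → ∀ x ∈ segment ℝ (P.p j) (P.q j),
      0 ≤ ip (w + (ω : ℂ) * (Complex.I * x)) (P.n j))
    (h' : P.Good (E ∪ {j | ∃ x ∈ openSegment ℝ (P.p j) (P.q j),
      0 < ip (w + (ω : ℂ) * (Complex.I * x)) (P.n j)})) : P.Good E := by
  refine Good.field E ({j | ∃ x ∈ openSegment ℝ (P.p j) (P.q j),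
      0 < ip (w + (ω : ℂ) * (Complex.I * x)) (P.n j)} \ E)
    (fun x => w + (ω : ℂ) * (Complex.I * x)) (by fun_prop) ?_ ?_ ?_
    (by rwa [Set.union_sdiff_self])
  · intro x y _
    have : (w + (ω : ℂ) * (Complex.I * y)) - (w + (ω : ℂ) * (Complex.I * x))
        = (ω : ℂ) * (Complex.I * (y - x)) := by ring
    rw [this, ip_smul_left, I_mul_ip, cr_self, mul_zero]
  · intro j hj x hx
    exact h j hj x (openSegment_subset_segment _ _ _ hx)
  · intro j hj y hy
    exact Or.inl (P.affine_pos w ω j (h j hj.2) hj.1 y hy)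

/-- A translation points into the table along all sides outside `E`. -/
theorem Good.halfplane {P : Polygon ι} (E : Set ι) (w : ℂ) (hw : w ≠ 0)
    (h : ∀ j, j ∉ E → 0 ≤ ip w (P.n j)) : P.Good E := by
  refine Good.killing E w 0 (fun j hj x _ => by simpa using h j hj) ?_
  have hz : ∀ j, j ∉ E ∪ {j | ∃ x ∈ openSegment ℝ (P.p j) (P.q j),
      0 < ip (w + ((0 : ℝ) : ℂ) * (Complex.I * x)) (P.n j)} → ip w (P.n j) = 0 := by
    intro j hj
    rw [mem_union, not_or] at hj
    refine le_antisymm (not_lt.1 fun hlt => hj.2 ?_) (h j hj.1)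
    refine ⟨P.p j + ((P.len j / 2 : ℝ) : ℂ) * P.u j, (P.mem_openSegment_iff j _).2
      ⟨P.len j / 2, half_pos (P.len_pos j), half_lt_self (P.len_pos j), rfl⟩, ?_⟩
    simpa using hlt
  refine Good.rational _ fun i hi j hj => ⟨2, two_pos, ?_⟩
  have e1 : ∀ k, ip w (P.n k) = 0 → w = (ip w (P.u k) : ℂ) * P.u k := by
    intro k hk
    have := decomp (P.u k) w (P.norm_u k)
    rw [← P.ip_n, hk] at this
    simpa using this
  have hi' := e1 i (hz i hi)
  have hj' := e1 j (hz j hj)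
  have hai : (ip w (P.u i)) ^ 2 = ‖w‖ ^ 2 := by
    have := ip_sq_add_cr_sq w (P.u i)
    rw [P.cr_u, hz i hi, P.norm_u] at this
    nlinarith
  have haj : (ip w (P.u j)) ^ 2 = ‖w‖ ^ 2 := by
    have := ip_sq_add_cr_sq w (P.u j)
    rw [P.cr_u, hz j hj, P.norm_u] at this
    nlinarith
  have hn : (‖w‖ : ℂ) ^ 2 ≠ 0 := by
    have : ‖w‖ ≠ 0 := norm_ne_zero_iff.2 hw
    exact pow_ne_zero 2 (by exact_mod_cast this)
  have h1 : w ^ 2 = (‖w‖ : ℂ) ^ 2 * P.u i ^ 2 := by
    conv_lhs => rw [hi']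
    rw [mul_pow]; congr 1; exact_mod_cast hai
  have h2 : w ^ 2 = (‖w‖ : ℂ) ^ 2 * P.u j ^ 2 := by
    conv_lhs => rw [hj']
    rw [mul_pow]; congr 1; exact_mod_cast haj
  have h3 : P.u i ^ 2 = P.u j ^ 2 := mul_left_cancel₀ hn (h1.symm.trans h2)
  rw [div_pow, h3]
  exact div_self (pow_ne_zero 2 (P.u_ne j))

end Polygon

end Pool.Agent.H93.BL
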