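import Pool.Agent.H93.BL.Targets

/-! # Bounded time from an entrance -/

namespace Pool.Agent.H93.BL.A3

open Set Pool.Agent.H93.BL Topology

/-- a predicate which is locally constant on a compact interval is constant -/
lemma loc_const (Q : ℝ → Prop) (t t' : ℝ) (htt : t ≤ t')
    (h : ∀ s ∈ Icc t t', ∃ ε > 0, ∀ s' ∈ Icc t t', |s' - s| < ε → (Q s' ↔ Q s)) :
    Q t ↔ Q t' := by
  classical
  have hc : ContinuousOn (fun s => decide (Q s)) (Icc t t') := by
    intro s hs
    obtain ⟨ε, hε, h1⟩ := h s hs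
    have h2 : (fun s' => decide (Q s')) =ᶠ[𝓝[Icc t t'] s] fun _ => decide (Q s) := by
      filter_upwards [inter_mem_nhdsWithin (Icc t t') (Metric.ball_mem_nhds s hε)] with s' hs'
      have h3 : |s' - s| < ε := by simpa [Real.dist_eq] using hs'.2
      exact decide_eq_decide.2 (h1 s' hs'.1 h3)
    exact continuousWithinAt_const.congr_of_eventuallyEq h2 rfl
  have h4 := isPreconnected_Icc.constant hc (left_mem_Icc.2 htt) (right_mem_Icc.2 htt)
  exact decide_eq_decide.1 h4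

lemma finite_max {α : Type*} (F : Set α) (hF : F.Finite) (R : α → ℕ → Prop)
    (mono : ∀ c N N', R c N → N ≤ N' → R c N') (h : ∀ c ∈ F, ∃ N, R c N) :
    ∃ N, ∀ c ∈ F, R c N := by
  induction F, hF using Set.Finite.induction_on with
  | empty => exact ⟨0, by simp⟩
  | @insert a s _ _ ih =>
    obtain ⟨N1, h1⟩ := ih (fun c hc => h c (mem_insert_of_mem _ hc))
    obtain ⟨N2, h2⟩ := h a (mem_insert _ _)
    refine ⟨max N1 N2, fun c hc => ?_⟩
    rcases hc with rfl | hc
    · exact mono _ _ _ h2 (le_max_right _ _)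
    · exact mono _ _ _ (h1 c hc) (le_max_left _ _)

variable {κ : Type} (S : HoleSys κ)

lemma no_pred (h1a : T_A1a) {m : ℕ} {y z : κ × ℝ} (hz : S.en z) (h : S.chain (m + 1) y z) :
    False := by
  obtain ⟨w, -, hw⟩ := (h1a κ S m 1 y z).1 h
  obtain ⟨y', hy', rfl⟩ := hw
  exact S.en_st _ _ hz hy'

lemma chain_mem {n : ℕ} {z y : κ × ℝ} (hz : S.mem z) (h : S.chain n z y) : S.mem y := by
  induction n generalizing z with
  | zero =>
    have : z = y := h
    rwa [← this]
  | succ n ih =>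
    obtain ⟨w, hw, hc⟩ := h
    exact ih (S.st_mem _ _ hw).2 hc

/-- entrance points which reach a forward singular point -/
def Estart : Set (κ × ℝ) := {z | S.en z ∧ ∃ n z', S.chain n z z' ∧ S.sf z'}

lemma aux_le (h1a : T_A1a) (h1c : T_A1c) {z1 z2 z' : κ × ℝ} {n1 n2 : ℕ} (he1 : S.en z1)
    (hc1 : S.chain n1 z1 z') (hc2 : S.chain n2 z2 z') (h : n1 ≤ n2) : z1 = z2 := by
  obtain ⟨d, rfl⟩ := Nat.exists_eq_add_of_le' h
  obtain ⟨y, hy1, hy2⟩ := (h1a κ S d n1 z2 z').1 hc2
  have hy : y = z1 := h1c κ S n1 y z1 z' hy2 hc1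
  subst hy
  cases d with
  | zero => exact (show z2 = y from hy1).symm
  | succ d => exact (no_pred S h1a he1 hy1).elim

lemma estart_finite (h1a : T_A1a) (h1c : T_A1c) : (Estart S).Finite := by
  classical
  have hsf : {z | S.sf z}.Finite := S.sf_fin
  choose! n f hf using fun (z : κ × ℝ) (hz : z ∈ Estart S) => hz.2
  refine Set.Finite.of_finite_image (f := f) (hsf.subset ?_) ?_
  · rintro _ ⟨z, hz, rfl⟩
    exact (hf z hz).2
  · intro z1 hz1 z2 hz2 h12
    have a1 := (hf z1 hz1).1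
    have a2 := (hf z2 hz2).1
    rw [← h12] at a2
    rcases le_total (n z1) (n z2) with h | h
    · exact aux_le S h1a h1c hz1.1 a1 a2 h
    · exact (aux_le S h1a h1c hz2.1 a2 a1 h).symm

/-- bad points -/
def Bad : Set (κ × ℝ) := Estart S ∪ {z | S.sb z}

lemma bad_finite (h1a : T_A1a) (h1c : T_A1c) : (Bad S).Finite :=
  (estart_finite S h1a h1c).union S.sb_fin

lemma en_const (k : κ) (t t' : ℝ) (htt : t ≤ t') (ha : S.a k < t) (hb : t' < S.b k)
    (hbad : ∀ s ∈ Icc t t', (k, s) ∉ Bad S) : S.en (k, t) ↔ S.en (k, t') := by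
  refine loc_const (fun s => S.en (k, s)) t t' htt ?_
  intro s hs
  by_cases he : S.en (k, s)
  · obtain ⟨ε, hε, h⟩ := S.en_loc k s he
    refine ⟨ε, hε, fun s' _ hd => ?_⟩
    have := h (s' - s) hd
    rw [add_sub_cancel] at this
    exact ⟨fun _ => he, fun _ => this⟩
  · have hmem : S.mem (k, s) := ⟨lt_of_lt_of_le ha hs.1, lt_of_le_of_lt hs.2 hb⟩
    have hsb : ¬ S.sb (k, s) := fun h => hbad s hs (Or.inr h)
    have hex : ∃ y, S.st y (k, s) := by
      by_contra hcon
      push Not at hcon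
      exact hsb ⟨hmem, he, hcon⟩
    obtain ⟨⟨ky, ty⟩, hy⟩ := hex
    obtain ⟨ε, hε, h⟩ := S.loc ky ty k s hy
    refine ⟨ε, hε, fun s' _ hd => ?_⟩
    have h2 := h (s - s') (by rwa [abs_sub_comm])
    rw [show s - (s - s') = s' by ring] at h2
    exact ⟨fun h3 => (S.en_st _ _ h3 h2).elim, fun h3 => (he h3).elim⟩

lemma chain_const (h1a : T_A1a) (h1b : T_A1b) (h1d : T_A1d) (k : κ) (t t' : ℝ) (htt : t ≤ t')
    (ha : S.a k < t) (hb : t' < S.b k) (hen : ∀ s ∈ Icc t t', S.en (k, s))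
    (hbad : ∀ s ∈ Icc t t', (k, s) ∉ Bad S) (n : ℕ) :
    (∃ z', S.chain n (k, t) z') ↔ (∃ z', S.chain n (k, t') z') := by
  classical
  refine loc_const (fun s => ∃ z', S.chain n (k, s) z') t t' htt ?_
  intro s hs
  by_cases hc : ∃ z', S.chain n (k, s) z'
  · obtain ⟨⟨k', u⟩, h⟩ := hc
    obtain ⟨ε, hε, h2⟩ := h1d κ S n k k' s u h
    refine ⟨ε, hε, fun s' _ hd => ?_⟩
    have := h2 (s' - s) hd
    rw [add_sub_cancel] at this
    exact ⟨fun _ => ⟨_, h⟩, fun _ => ⟨_, this⟩⟩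
  · have hex : ∃ m, ¬ ∃ z', S.chain m (k, s) z' := ⟨n, hc⟩
    obtain ⟨m, hm, hmin⟩ : ∃ m, (¬ ∃ z', S.chain m (k, s) z') ∧
        ∀ i < m, ∃ z', S.chain i (k, s) z' :=
      ⟨Nat.find hex, Nat.find_spec hex, fun i hi => not_not.1 (Nat.find_min hex hi)⟩
    have hmn : m ≤ n := by
      by_contra hlt
      exact hc (hmin n (not_le.1 hlt))
    cases m with
    | zero => exact (hm ⟨(k, s), rfl⟩).elim
    | succ m =>
      obtain ⟨⟨ky, ty⟩, hy⟩ := hmin m (Nat.lt_succ_self m)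
      have hnos : ∀ z', ¬ S.st (ky, ty) z' := fun z' hz' =>
        hm ⟨z', (h1a κ S m 1 _ _).2 ⟨(ky, ty), hy, z', hz', rfl⟩⟩
      have hen' := hen s hs
      have hmem : S.mem (ky, ty) := chain_mem S (S.en_mem _ hen') hy
      have hexy : S.ex (ky, ty) := by
        by_contra hne
        exact hbad s hs (Or.inl ⟨hen', m, _, hy, hmem, hne, hnos⟩)
      obtain ⟨ε1, hε1, hd1⟩ := h1d κ S m k ky s ty hy
      obtain ⟨ε2, hε2, hd2⟩ := S.ex_loc ky ty hexy
      refine ⟨min ε1 ε2, lt_min hε1 hε2, fun s' _ hd => ?_⟩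
      have e1 := hd1 (s' - s) (lt_of_lt_of_le hd (min_le_left _ _))
      rw [add_sub_cancel] at e1
      have e2 := hd2 ((-1) ^ m * (s' - s)) (by
        rw [abs_mul, abs_pow, abs_neg, abs_one, one_pow, one_mul]
        exact lt_of_lt_of_le hd (min_le_right _ _))
      refine ⟨fun ⟨z', hz'⟩ => ?_, fun h => (hc h).elim⟩
      obtain ⟨d, rfl⟩ := Nat.exists_eq_add_of_le hmn
      obtain ⟨w, hw, -⟩ := (h1a κ S (m + 1) d _ _).1 hz'
      obtain ⟨y', hy', hst⟩ := (h1a κ S m 1 _ _).1 hw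
      obtain ⟨w', hw', -⟩ := hst
      have := h1b κ S m _ _ _ hy' e1
      rw [this] at hw'
      exact (S.ex_st _ _ e2 hw').elim

lemma sub_Icc {t t' s : ℝ} (hs : s ∈ Icc t t') {x : ℝ} (hx : x ∈ Icc t s) : x ∈ Icc t t' :=
  ⟨hx.1, hx.2.trans hs.2⟩

/-- transport of the length bound along an interval of good points, both orders -/
lemma transport (h1a : T_A1a) (h1b : T_A1b) (h1d : T_A1d) (k : κ) (t t' : ℝ)
    (hm : S.mem (k, t)) (hm' : S.mem (k, t')) (hen : S.en (k, t))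
    (hbad : ∀ s ∈ uIcc t t', (k, s) ∉ Bad S) :
    S.en (k, t') ∧ ∀ n, (∃ z', S.chain n (k, t) z') ↔ (∃ z', S.chain n (k, t') z') := by
  rcases le_total t t' with h | h
  · rw [uIcc_of_le h] at hbad
    have h1 : ∀ s ∈ Icc t t', S.en (k, s) := fun s hs =>
      (en_const S k t s hs.1 hm.1 (lt_of_le_of_lt hs.2 hm'.2)
        (fun x hx => hbad x (sub_Icc hs hx))).1 hen
    exact ⟨h1 t' (right_mem_Icc.2 h), fun n =>
      chain_const S h1a h1b h1d k t t' h hm.1 hm'.2 h1 hbad n⟩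
  · rw [uIcc_of_ge h] at hbad
    have h1 : ∀ s ∈ Icc t' t, S.en (k, s) := fun s hs =>
      (en_const S k s t hs.2 (lt_of_lt_of_le hm'.1 hs.1) hm.2
        (fun x hx => hbad x ⟨hs.1.trans hx.1, hx.2⟩)).2 hen
    exact ⟨h1 t' (left_mem_Icc.2 h), fun n =>
      (chain_const S h1a h1b h1d k t' t h hm'.1 hm.2 h1 hbad n).symm⟩

/-- bad points of the leg `k` below `t` -/
def below (k : κ) (t : ℝ) : Set ℝ := {s | (k, s) ∈ Bad S ∧ s < t}

lemma same_class {k : κ} {t t' : ℝ} (ht : (k, t) ∉ Bad S) (ht' : (k, t') ∉ Bad S)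
    (h : below S k t = below S k t') : ∀ s ∈ uIcc t t', (k, s) ∉ Bad S := by
  intro s hs hb
  rcases le_total t t' with h1 | h1
  · rw [uIcc_of_le h1] at hs
    rcases eq_or_lt_of_le hs.2 with h2 | h2
    · rw [h2] at hb; exact ht' hb
    · have : s ∈ below S k t' := ⟨hb, h2⟩
      rw [← h] at this
      exact absurd this.2 (not_lt.2 hs.1)
  · rw [uIcc_of_ge h1] at hs
    rcases eq_or_lt_of_le hs.2 with h2 | h2
    · rw [h2] at hb; exact ht hb
    · have : s ∈ below S k t := ⟨hb, h2⟩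
      rw [h] at this
      exact absurd this.2 (not_lt.2 hs.1)

theorem a3 (h1a : T_A1a) (h1b : T_A1b) (h1c : T_A1c) (h1d : T_A1d) (h2 : T_A2) : T_A3 := by
  intro κ _ S
  classical
  have hBf : (Bad S).Finite := bad_finite S h1a h1c
  -- entrance points have finite length outside the bad set
  have hfin : ∀ k t, S.en (k, t) → (k, t) ∉ Bad S → ∃ n, ¬ ∃ z', S.chain n (k, t) z' := by
    intro k t hen hb
    by_contra hcon
    push Not at hcon
    have hmem := S.en_mem _ hen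
    have hopen : IsOpen ({s : ℝ | S.a k < s ∧ s < S.b k} \ {s | (k, s) ∈ Bad S}) := by
      apply IsOpen.sdiff
      · exact isOpen_Ioo
      · apply Set.Finite.isClosed
        exact hBf.preimage (f := fun s => (k, s)) (fun a _ b _ h => (Prod.mk.inj h).2)
    obtain ⟨ρ, hρ, hball⟩ := Metric.isOpen_iff.1 hopen t ⟨hmem, hb⟩
    have hgood : ∀ s, |s - t| < ρ → S.mem (k, s) ∧ (k, s) ∉ Bad S := by
      intro s hs
      have := hball (show s ∈ Metric.ball t ρ by simpa [Real.dist_eq] using hs)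
      exact ⟨this.1, this.2⟩
    have htr : ∀ s, |s - t| < ρ →
        S.en (k, s) ∧ ∀ n, (∃ z', S.chain n (k, t) z') ↔ (∃ z', S.chain n (k, s) z') := by
      intro s hs
      refine transport S h1a h1b h1d k t s hmem (hgood s hs).1 hen ?_
      intro x hx
      apply (hgood x ?_).2
      have : |x - t| ≤ |s - t| := by
        rcases le_total t s with h | h
        · rw [uIcc_of_le h] at hx
          rw [abs_of_nonneg (by linarith [hx.1]), abs_of_nonneg (by linarith)]; linarith [hx.2]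
        · rw [uIcc_of_ge h] at hx
          rw [abs_of_nonpos (by linarith [hx.2]), abs_of_nonpos (by linarith)]; linarith [hx.1]
      linarith
    refine h2 κ S k t ρ hρ (fun δ hδ => (htr (t + δ) (by simpa using hδ)).1) ?_
    intro δ hδ n
    exact ((htr (t + δ) (by simpa using hδ)).2 n).1 (hcon n)
  -- bound on one class
  have hclass : ∀ k : κ, ∃ N : ℕ, ∀ t, S.en (k, t) → (k, t) ∉ Bad S →
      ∀ n z', S.chain n (k, t) z' → n ≤ N := by
    intro k
    have hBk : {s : ℝ | (k, s) ∈ Bad S}.Finite :=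
      hBf.preimage (f := fun s => (k, s)) (fun a _ b _ h => (Prod.mk.inj h).2)
    obtain ⟨N, hN⟩ := finite_max {c : Set ℝ | c ⊆ {s : ℝ | (k, s) ∈ Bad S}} hBk.finite_subsets
      (fun c N => ∀ t, below S k t = c → S.en (k, t) → (k, t) ∉ Bad S →
        ∀ n z', S.chain n (k, t) z' → n ≤ N)
      (fun c N N' h hle t h1 h2 h3 n z' h4 => (h t h1 h2 h3 n z' h4).trans hle) (by
        intro c _
        by_cases hne : ∃ t, below S k t = c ∧ S.en (k, t) ∧ (k, t) ∉ Bad S
        · obtain ⟨t0, hc0, he0, hb0⟩ := hne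
          obtain ⟨n0, hn0⟩ := hfin k t0 he0 hb0
          refine ⟨n0, fun t hc he hb n z' hch => ?_⟩
          by_contra hlt
          have h5 := (transport S h1a h1b h1d k t0 t (S.en_mem _ he0) (S.en_mem _ he) he0
            (same_class S hb0 hb (hc0.trans hc.symm))).2 n0
          apply hn0
          rw [h5]
          obtain ⟨d, hd⟩ := Nat.exists_eq_add_of_le (not_le.1 hlt).le
          rw [hd] at hch
          obtain ⟨w, hw, -⟩ := (h1a κ S n0 d _ _).1 hch
          exact ⟨w, hw⟩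
        · exact ⟨0, fun t hc he hb => (hne ⟨t, hc, he, hb⟩).elim⟩)
    exact ⟨N, fun t he hb n z' h => hN (below S k t) (fun s hs => hs.1) t rfl he hb n z' h⟩
  obtain ⟨N1, hN1⟩ := finite_max (Set.univ : Set κ) Set.finite_univ
    (fun k N => ∀ t, S.en (k, t) → (k, t) ∉ Bad S → ∀ n z', S.chain n (k, t) z' → n ≤ N)
    (fun c N N' h hle t h1 h2 n z' h4 => (h t h1 h2 n z' h4).trans hle) (fun k _ => hclass k)
  obtain ⟨N2, hN2⟩ := finite_max (Estart S) (estart_finite S h1a h1c)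
    (fun z N => ∀ n z', S.chain n z z' → n ≤ N)
    (fun c N N' h hle n z' h4 => (h n z' h4).trans hle) (by
      rintro z ⟨_, n0, z0, hc0, hsf⟩
      refine ⟨n0, fun n z' hc => ?_⟩
      by_contra hlt
      obtain ⟨d, hd⟩ := Nat.exists_eq_add_of_lt (not_le.1 hlt)
      rw [hd, show n0 + d + 1 = n0 + (d + 1) by ring] at hc
      obtain ⟨w, hw, hw2⟩ := (h1a κ S n0 (d + 1) _ _).1 hc
      have := h1b κ S n0 _ _ _ hw hc0
      rw [this] at hw2
      obtain ⟨w', hw', -⟩ := hw2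
      exact hsf.2.2 _ hw')
  refine ⟨max N1 N2, fun n z z' he hc => ?_⟩
  by_cases hz : z ∈ Estart S
  · exact (hN2 z hz n z' hc).trans (le_max_right _ _)
  · have hb : z ∉ Bad S := by
      rintro (h | h)
      · exact hz h
      · exact h.2.1 he
    exact (hN1 z.1 (mem_univ _) z.2 he hb n z' hc).trans (le_max_left _ _)

end Pool.Agent.H93.BL.A3
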