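import Pool.Agent.H93.BL.A3

/-! # All or nothing on the intervals -/

namespace Pool.Agent.H93.BL.A5

open Set Pool.Agent.H93.BL Pool.Agent.H93.BL.A3

variable {κ : Type} (S : HoleSys κ)

/-- sub-chains -/
lemma sub_chain (h1a : T_A1a) {n m : ℕ} {z : κ × ℝ} (h : ∃ w, S.chain n z w) (hmn : m ≤ n) :
    ∃ w, S.chain m z w := by
  obtain ⟨w, hw⟩ := h
  obtain ⟨d, rfl⟩ := Nat.exists_eq_add_of_le hmn
  obtain ⟨y, hy, -⟩ := (h1a κ S m d _ _).1 hw
  exact ⟨y, hy⟩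

lemma sub_chain' (h1a : T_A1a) {n m : ℕ} {z : κ × ℝ} (h : ∃ w, S.chain n w z) (hmn : m ≤ n) :
    ∃ w, S.chain m w z := by
  obtain ⟨w, hw⟩ := h
  obtain ⟨d, rfl⟩ := Nat.exists_eq_add_of_le' hmn
  obtain ⟨y, -, hy⟩ := (h1a κ S d m _ _).1 hw
  exact ⟨y, hy⟩

lemma chain_succ (h1a : T_A1a) {n : ℕ} {z y w : κ × ℝ} (h : S.chain n z y) (hs : S.st y w) :
    S.chain (n + 1) z w := (h1a κ S n 1 _ _).2 ⟨y, h, w, hs, rfl⟩

lemma chain_mem' (h1a : T_A1a) {n : ℕ} {z y : κ × ℝ} (hy : S.mem y) (h : S.chain n z y) :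
    S.mem z := by
  cases n with
  | zero => rwa [show z = y from h]
  | succ n =>
    obtain ⟨w, hw, -⟩ := h
    exact (S.st_mem _ _ hw).1

/-- a point outside `U` has a long chain -/
lemma long (h1a : T_A1a) (hns : ∀ n z z', S.chain n z z' → S.sb z → S.sf z' → False)
    (K : ℕ) {z : κ × ℝ} (hz : S.mem z) (hU : ¬ S.U z) :
    (∃ w, S.chain K z w) ∨ (∃ w, S.chain K w z) := by
  classical
  by_contra hcon
  push Not at hcon
  obtain ⟨h1, h2⟩ := hcon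
  have e1 : ∃ m, ¬ ∃ w, S.chain m z w := ⟨K, fun ⟨w, hw⟩ => h1 w hw⟩
  have e2 : ∃ m, ¬ ∃ w, S.chain m w z := ⟨K, fun ⟨w, hw⟩ => h2 w hw⟩
  obtain ⟨m, hm, hmin⟩ : ∃ m, (¬ ∃ w, S.chain m z w) ∧ ∀ i < m, ∃ w, S.chain i z w :=
    ⟨Nat.find e1, Nat.find_spec e1, fun i hi => not_not.1 (Nat.find_min e1 hi)⟩
  obtain ⟨m', hm', hmin'⟩ : ∃ m, (¬ ∃ w, S.chain m w z) ∧ ∀ i < m, ∃ w, S.chain i w z :=
    ⟨Nat.find e2, Nat.find_spec e2, fun i hi => not_not.1 (Nat.find_min e2 hi)⟩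
  cases m with
  | zero => exact hm ⟨z, rfl⟩
  | succ m =>
    cases m' with
    | zero => exact hm' ⟨z, rfl⟩
    | succ m' =>
      obtain ⟨y, hy⟩ := hmin m (Nat.lt_succ_self m)
      obtain ⟨y', hy'⟩ := hmin' m' (Nat.lt_succ_self m')
      have hsf : S.sf y := by
        refine ⟨chain_mem S hz hy, fun hex => hU (Or.inl ⟨m, y, hy, hex⟩), fun w hw => ?_⟩
        exact hm ⟨w, chain_succ S h1a hy hw⟩
      have hsb : S.sb y' := by
        refine ⟨chain_mem' S h1a hz hy', fun hen => hU (Or.inr ⟨m', y', hy', hen⟩), fun w hw => ?_⟩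
        exact hm' ⟨w, y', hw, hy'⟩
      exact hns (m' + m) y' y ((h1a κ S m' m _ _).2 ⟨z, hy', hy⟩) hsb hsf

/-- a point with a long chain is not in `U` -/
lemma not_U (h1a : T_A1a) (h1b : T_A1b) (h1c : T_A1c) {N N' K : ℕ}
    (hN : ∀ n z z', S.en z → S.chain n z z' → n ≤ N)
    (hN' : ∀ n z z', S.ex z' → S.chain n z z' → n ≤ N') (hK : N < K) (hK' : N' < K)
    {z : κ × ℝ} (h : (∃ w, S.chain K z w) ∨ (∃ w, S.chain K w z)) : ¬ S.U z := by
  rintro (⟨n, z', hc, hex⟩ | ⟨n, z', hc, hen⟩)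
  · have hn := hN' n z z' hex hc
    rcases h with h | ⟨w, hw⟩
    · obtain ⟨w, hw⟩ := sub_chain S h1a h (show n + 1 ≤ K by omega)
      obtain ⟨y, hy, y', hst, -⟩ := (h1a κ S n 1 _ _).1 hw
      rw [h1b κ S n _ _ _ hy hc] at hst
      exact S.ex_st _ _ hex hst
    · have := hN' (K + n) w z' hex ((h1a κ S K n _ _).2 ⟨z, hw, hc⟩)
      omega
  · have hn := hN n z' z hen hc
    rcases h with ⟨w, hw⟩ | h
    · have := hN (n + K) z' w hen ((h1a κ S n K _ _).2 ⟨z, hc, hw⟩)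
      omega
    · obtain ⟨w, hw⟩ := sub_chain' S h1a h (show 1 + n ≤ K by omega)
      obtain ⟨y, ⟨y', hst, rfl⟩, hy⟩ := (h1a κ S 1 n _ _).1 hw
      rw [h1c κ S n _ _ _ hy hc] at hst
      exact S.en_st _ _ hen hst

theorem a5 (h1a : T_A1a) (h1b : T_A1b) (h1c : T_A1c) (h1d : T_A1d) (h3 : T_A3) (h4 : T_A4) :
    T_A5 := by
  intro κ _ S hns k t t' hm hm' hU
  obtain ⟨N, hN⟩ := h3 κ S
  obtain ⟨N', hN'⟩ := h4 κ S
  set K := max N N' + 1 with hKdef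
  have hK : N < K := by omega
  have hK' : N' < K := by omega
  have key : ∀ s, S.mem (k, s) → ∃ ε > 0, ∀ s', |s' - s| < ε → (S.U (k, s') ↔ S.U (k, s)) := by
    intro s hs
    by_cases hUs : S.U (k, s)
    · rcases hUs with ⟨n, ⟨k1, t1⟩, hc, hex⟩ | ⟨n, ⟨k1, t1⟩, hc, hen⟩
      · obtain ⟨ε1, hε1, hd1⟩ := h1d κ S n k k1 s t1 hc
        obtain ⟨ε2, hε2, hd2⟩ := S.ex_loc k1 t1 hex
        refine ⟨min ε1 ε2, lt_min hε1 hε2, fun s' hd => ?_⟩
        have e1 := hd1 (s' - s) (lt_of_lt_of_le hd (min_le_left _ _))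
        rw [add_sub_cancel] at e1
        have e2 := hd2 ((-1) ^ n * (s' - s)) (by
          rw [abs_mul, abs_pow, abs_neg, abs_one, one_pow, one_mul]
          exact lt_of_lt_of_le hd (min_le_right _ _))
        exact ⟨fun _ => Or.inl ⟨n, _, hc, hex⟩, fun _ => Or.inl ⟨n, _, e1, e2⟩⟩
      · obtain ⟨ε1, hε1, hd1⟩ := h1d κ S n k1 k t1 s hc
        obtain ⟨ε2, hε2, hd2⟩ := S.en_loc k1 t1 hen
        refine ⟨min ε1 ε2, lt_min hε1 hε2, fun s' hd => ?_⟩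
        have hab : |(-1) ^ n * (s' - s)| = |s' - s| := by
          rw [abs_mul, abs_pow, abs_neg, abs_one, one_pow, one_mul]
        have e1 := hd1 ((-1) ^ n * (s' - s)) (by
          rw [hab]; exact lt_of_lt_of_le hd (min_le_left _ _))
        have hsq : ((-1 : ℝ)) ^ n * ((-1) ^ n * (s' - s)) = s' - s := by
          rw [← mul_assoc, ← mul_pow]; norm_num
        rw [hsq, add_sub_cancel] at e1
        have e2 := hd2 ((-1) ^ n * (s' - s)) (by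
          rw [hab]; exact lt_of_lt_of_le hd (min_le_right _ _))
        exact ⟨fun _ => Or.inr ⟨n, _, hc, hen⟩, fun _ => Or.inr ⟨n, _, e1, e2⟩⟩
    · rcases long S h1a hns K hs hUs with ⟨⟨k1, t1⟩, hc⟩ | ⟨⟨k1, t1⟩, hc⟩
      · obtain ⟨ε1, hε1, hd1⟩ := h1d κ S K k k1 s t1 hc
        refine ⟨ε1, hε1, fun s' hd => ?_⟩
        have e1 := hd1 (s' - s) hd
        rw [add_sub_cancel] at e1
        have := not_U S h1a h1b h1c hN hN' hK hK' (z := (k, s')) (Or.inl ⟨_, e1⟩)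
        exact ⟨fun h => (this h).elim, fun h => (hUs h).elim⟩
      · obtain ⟨ε1, hε1, hd1⟩ := h1d κ S K k1 k t1 s hc
        refine ⟨ε1, hε1, fun s' hd => ?_⟩
        have e1 := hd1 ((-1) ^ K * (s' - s)) (by
          rw [abs_mul, abs_pow, abs_neg, abs_one, one_pow, one_mul]; exact hd)
        have hsq : ((-1 : ℝ)) ^ K * ((-1) ^ K * (s' - s)) = s' - s := by
          rw [← mul_assoc, ← mul_pow]; norm_num
        rw [hsq, add_sub_cancel] at e1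
        have := not_U S h1a h1b h1c hN hN' hK hK' (z := (k, s')) (Or.inr ⟨_, e1⟩)
        exact ⟨fun h => (this h).elim, fun h => (hUs h).elim⟩
  rcases le_total t t' with htt | htt
  · refine (loc_const (fun s => S.U (k, s)) t t' htt ?_).1 hU
    intro s hs
    obtain ⟨ε, hε, h⟩ := key s ⟨lt_of_lt_of_le hm.1 hs.1, lt_of_le_of_lt hs.2 hm'.2⟩
    exact ⟨ε, hε, fun s' _ hd => h s' hd⟩
  · refine (loc_const (fun s => S.U (k, s)) t' t htt ?_).2 hU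
    intro s hs
    obtain ⟨ε, hε, h⟩ := key s ⟨lt_of_lt_of_le hm'.1 hs.1, lt_of_le_of_lt hs.2 hm.2⟩
    exact ⟨ε, hε, fun s' _ hd => h s' hd⟩

end Pool.Agent.H93.BL.A5
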