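import Pool.Agent.H93.BL.Targets

/-! # Singular points of the interval system hit vertices -/

namespace Pool.Agent.H93.BL.L5

open MeasureTheory Set Pool.Agent.H93.BL

theorem l5 (hL1 : T_L1) (hG2 : T_G2) (hG3 : T_G3) (hG6 : T_G6) : T_L5 := by
  rintro ι _ P E C ⟨⟨⟨j, v⟩, hleg⟩, t⟩ hz
  obtain ⟨hjE, hvC, hrC, hv1, hpos⟩ := hleg
  simp only at hjE hvC hrC hv1 hpos
  have hleg : ((j, v) : ι × ℂ) ∈ P.Leg E C := ⟨hjE, hvC, hrC, hv1, hpos⟩
  set k : P.Leg E C := ⟨(j, v), hleg⟩ with hk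
  have hx : P.lpt E C k t ∈ openSegment ℝ (P.p j) (P.q j) := ((hL1 ι P E C k).2.1 t).1 hz
  set x := P.lpt E C k t with hxdef
  have hv0 : v ≠ 0 := by intro h; rw [h, norm_zero] at hv1; exact zero_ne_one hv1
  have hct : cr v x = t := (hL1 ι P E C k).1 t
  have hinn : P.inn j x v := ⟨hx, hv1, hpos⟩
  have hlz : P.lz E C (k, t) = (j, x, v) := rfl
  constructor
  · intro hex hst
    obtain ⟨τ, h | h⟩ := hG3 ι P x v hv0 (hG2 ι P j x v hx hpos)
    · exfalso
      obtain ⟨j0, hhit⟩ := h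
      have hcond : ¬ (j0 ∈ E ∨ P.refl j0 v ∉ C) := fun hc => hex ⟨hz, j0, τ, hhit, hc⟩
      push Not at hcond
      obtain ⟨hj0, hr0⟩ := hcond
      have hleg' : ((j0, P.refl j0 v) : ι × ℂ) ∈ P.Leg E C := by
        refine ⟨hj0, hr0, ?_, ?_, ?_⟩
        · change P.refl j0 (P.refl j0 v) ∈ C; rwa [P.refl_refl]
        · change ‖P.refl j0 v‖ = 1; rwa [P.norm_refl]
        · change 0 < ip (P.refl j0 v) (P.n j0)
          rw [P.ip_refl_n]; linarith [hhit.2.2.2]
      set k' : P.Leg E C := ⟨(j0, P.refl j0 v), hleg'⟩ with hk'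
      have hx' : x + (τ : ℂ) * v ∈ openSegment ℝ (P.p j0) (P.q j0) := hhit.2.2.1
      have hl : P.lpt E C k' (cr (P.refl j0 v) (x + (τ : ℂ) * v)) = x + (τ : ℂ) * v :=
        (hL1 ι P E C k').2.2.1 _ hx'
      refine hst (k', cr (P.refl j0 v) (x + (τ : ℂ) * v)) ?_
      refine ⟨hinn, τ, hhit, ?_, rfl⟩
      exact hl
    · obtain ⟨w, hw⟩ := h
      exact ⟨w, τ, hw⟩
  · intro hen hst
    change ∃ w τ, P.VHit x (-P.refl j v) w τ
    have hr0 : -P.refl j v ≠ 0 := by
      intro h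
      have := P.norm_refl j v
      rw [neg_eq_zero.1 h, norm_zero, hv1] at this; exact zero_ne_one this
    have hrpos : 0 < ip (-P.refl j v) (P.n j) := by
      rw [ip_neg_left, P.ip_refl_n, neg_neg]; exact hpos
    obtain ⟨τ, h | h⟩ := hG3 ι P x (-P.refl j v) hr0 (hG2 ι P j x _ hx hrpos)
    · exfalso
      obtain ⟨j0, hhit⟩ := h
      have hcond : ¬ (j0 ∈ E ∨ P.refl j0 (P.refl j v) ∉ C) :=
        fun hc => hen ⟨hz, j0, τ, hhit, hc⟩
      push Not at hcond
      obtain ⟨hj0, hrr0⟩ := hcond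
      have hleg' : ((j0, P.refl j v) : ι × ℂ) ∈ P.Leg E C := by
        refine ⟨hj0, hrC, hrr0, ?_, ?_⟩
        · change ‖P.refl j v‖ = 1; rwa [P.norm_refl]
        · change 0 < ip (P.refl j v) (P.n j0)
          have := hhit.2.2.2
          rw [ip_neg_left] at this; linarith
      set k' : P.Leg E C := ⟨(j0, P.refl j v), hleg'⟩ with hk'
      set x0 := x + (τ : ℂ) * (-P.refl j v) with hx0
      have hx' : x0 ∈ openSegment ℝ (P.p j0) (P.q j0) := hhit.2.2.1
      have hl : P.lpt E C k' (cr (P.refl j v) x0) = x0 :=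
        (hL1 ι P E C k').2.2.1 _ hx'
      refine hst (k', cr (P.refl j v) x0) ?_
      -- the reversed step
      have hstep : P.GStep (j, x, -P.refl j v) (j0, x0, P.refl j0 (-P.refl j v)) := by
        refine ⟨⟨hx, ?_, hrpos⟩, τ, hhit, rfl, rfl⟩
        change ‖-P.refl j v‖ = 1
        rw [norm_neg, P.norm_refl]; exact hv1
      have hrev := (hG6 ι P (j, x, -P.refl j v) (j0, x0, P.refl j0 (-P.refl j v))
        (j, x, v)).1 hstep
      have e1 : P.rev (j0, x0, P.refl j0 (-P.refl j v)) = (j0, x0, P.refl j v) := by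
        unfold Polygon.rev
        simp only [P.refl_refl, neg_neg]
      have e2 : P.rev (j, x, -P.refl j v) = (j, x, v) := by
        unfold Polygon.rev
        simp only [P.refl_neg, P.refl_refl, neg_neg]
      rw [e1, e2] at hrev
      have e3 : P.lz E C (k', cr (P.refl j v) x0) = (j0, x0, P.refl j v) := by
        unfold Polygon.lz; rw [hl]
      change P.GStep (P.lz E C (k', cr (P.refl j v) x0)) (P.lz E C (k, t))
      rw [e3, hlz]
      exact hrev
    · obtain ⟨w, hw⟩ := h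
      exact ⟨w, τ, hw⟩

end Pool.Agent.H93.BL.L5
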