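import Pool.Agent.H93.BL.GEN2
import Pool.Agent.H93.BL.A3
import Pool.Agent.H93.BL.L5
import Pool.Agent.H33.BL.A1
import Pool.Agent.H59.BL.A2
import Pool.Agent.H56.BL.A4
import Pool.Agent.H93.BL.A5
import Pool.Agent.H26.BL.B1
import Pool.Agent.H26.BL.B2
import Pool.Agent.H26.BL.B3
import Pool.Agent.H26.BL.B4
import Pool.Agent.H98.BL.C1
import Pool.Agent.H98.BL.C2
import Pool.Agent.H80.BL.C4
import Pool.Agent.H80.BL.C5
import Pool.Agent.H34.BL.CD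
import Pool.Agent.H95.BL.D
import Pool.Agent.H58.BL.D1
import Pool.Agent.H31.BL.D2
import Pool.Agent.H31.BL.G1
import Pool.Agent.H31.BL.G2
import Pool.Agent.H58.BL.G3
import Pool.Agent.H67.BL.G4
import Pool.Agent.H42.BL.G5A
import Pool.Agent.H56.BL.G5B
import Pool.Agent.H67.BL.G6
import Pool.Agent.H26.BL.L1
import Pool.Agent.H67.BL.L2
import Pool.Agent.H79.BL.L3
import Pool.Agent.H42.BL.L4
import Pool.Agent.H89.BL.L6
import Pool.Agent.H34.BL.L7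
import Pool.Agent.H31.BL.L8
import Pool.Agent.H5.BL.M0
import Pool.Agent.H58.BL.M1
import Pool.Agent.H11.BL.M2
import Pool.Agent.H80.BL.M3
import Pool.Agent.H5.BL.M4
import Pool.Agent.H95.BL.M5
import Pool.Agent.H11.BL.M6
import Pool.Agent.H5.BL.M7
import Pool.Agent.H79.BL.M8
import Pool.Agent.H59.BL.M9
import Pool.Agent.H22.BL.QUAD
import Pool.Agent.H22.BL.RA
import Pool.Agent.H26.BL.SA
import Pool.Agent.H67.BL.SB
import Pool.Agent.H67.BL.SC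
import Pool.Agent.H95.BL.SD

/-! # Final assembly for `MP_009700_an` -/

namespace Pool.Agent.H93.BL

open MeasureTheory Set

/-- The criterion, and its application to large classes of tables. -/
def Statement : Prop :=
  (∀ (ι : Type) [Fintype ι] (P : Polygon ι) (E : Set ι), E.Nonempty → P.Good E →
    P.Determines E) ∧
  (∀ (ι : Type) [Fintype ι] (P : Polygon ι) (E : Set ι) (w : ℂ), E.Nonempty → w ≠ 0 →
    (∀ j, j ∉ E → 0 ≤ ip w (P.n j)) → P.Determines E) ∧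
  (∀ (ι : Type) [Fintype ι] (P : Polygon ι) (E : Set ι) (a b : ι), E.Nonempty →
    (∀ j, j ∉ E → j = a ∨ j = b) → P.Determines E) ∧
  (∀ (ι : Type) [Fintype ι] (P : Polygon ι) (E : Set ι) (c r : ℂ), E.Nonempty →
    ‖c‖ = 1 → ‖r‖ = 1 → (∀ j, j ∉ E → P.u j ^ 2 = c ∨ P.u j ^ 2 = -c ∨
      ((P.u j ^ 2 = r * c ∨ r * P.u j ^ 2 = c) ∧ ∃ e ∈ E, P.Corner j e ∨ P.Corner e j)) →
    P.Determines E) ∧
  (∀ P : Polygon (Fin 3), ∀ i, P.Determines {i}) ∧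
  (∀ P : Polygon (Fin 4), (∀ i, P.q i = P.p (i + 1)) → (∀ i, 0 < cr (P.u i) (P.u (i + 1))) →
    ∀ i, (0 ≤ cr (P.u (i + 1)) (P.u (i + 3)) ∨ ip (P.u (i + 1)) (P.u (i + 2)) = 0 ∨
      ip (P.u (i + 2)) (P.u (i + 3)) = 0 ∨
      ip (P.u (i + 1)) (P.u (i + 2)) = ip (P.u (i + 2)) (P.u (i + 3))) → P.Determines {i})

/-- Orbits outside an invariant set containing the phase space of a side. -/
def Statement2 : Prop :=
  ∀ (ι : Type) [Fintype ι] (P : Polygon ι) (e : ι) (X : ι → Set (ℝ × ℝ)),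
    (∀ i, MeasurableSet (X i)) → P.Invariant X → P.liouville e (X e)ᶜ = 0 →
      ∀ i, ∀ᵐ z ∂(P.liouville i), z ∉ X i → (P.dirs (i, z)).Infinite

end Pool.Agent.H93.BL

namespace Pool.Agent.H93.BL.Final

open MeasureTheory Set Pool.Agent.H93.BL

theorem pA1a : T_A1a := Pool.Agent.H33.BL.A1.a1a
theorem pA1b : T_A1b := Pool.Agent.H33.BL.A1.a1b
theorem pA1c : T_A1c := Pool.Agent.H33.BL.A1.a1c
theorem pA1d : T_A1d := Pool.Agent.H33.BL.A1.a1d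
theorem pA2 : T_A2 := Pool.Agent.H59.BL.A2.a2 pA1a pA1b pA1c pA1d
theorem pA3 : T_A3 := Pool.Agent.H93.BL.A3.a3 pA1a pA1b pA1c pA1d pA2
theorem pA4 : T_A4 := Pool.Agent.H56.BL.A4.a4 pA1a pA1b pA1c pA1d pA3
theorem pA5 : T_A5 := Pool.Agent.H93.BL.A5.a5 pA1a pA1b pA1c pA1d pA3 pA4
theorem pG1 : T_G1 := Pool.Agent.H31.BL.G1.g1
theorem pG2 : T_G2 := Pool.Agent.H31.BL.G2.g2 pG1
theorem pG3 : T_G3 := Pool.Agent.H58.BL.G3.pf pG1
theorem pG4 : T_G4 := Pool.Agent.H67.BL.G4.g4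
theorem pG5a : T_G5a := Pool.Agent.H42.BL.G5A.g5a pG1
theorem pG5b : T_G5b := Pool.Agent.H56.BL.G5B.g5b pG1 pG5a
theorem pG6 : T_G6 := Pool.Agent.H67.BL.G6.g6 pG4
theorem pB1 : T_B1 := Pool.Agent.H26.BL.B1.b1
theorem pB2 : T_B2 := Pool.Agent.H26.BL.B2.b2
theorem pB3 : T_B3 := Pool.Agent.H26.BL.B3.b3 pB1 pB2 pG6
theorem pB4 : T_B4 := Pool.Agent.H26.BL.B4.b4 pB1 pB2
theorem pL1 : T_L1 := Pool.Agent.H26.BL.L1.l1
theorem pL2 : T_L2 := Pool.Agent.H67.BL.L2.l2 pL1 pG4 pG6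
theorem pL3 : T_L3 := Pool.Agent.H79.BL.L3.l3 pL1 pG5b
theorem pL4 : T_L4 := Pool.Agent.H42.BL.L4.l4 pL1 pG5b
theorem pL5 : T_L5 := Pool.Agent.H93.BL.L5.l5 pL1 pG2 pG3 pG6
theorem pL6 : T_L6 := Pool.Agent.H89.BL.L6.l6 pL1 pL5
theorem pL7 : T_L7 := Pool.Agent.H34.BL.L7.l7
theorem pL8 : T_L8 := Pool.Agent.H31.BL.L8.l8 pL1 pL2 pL3 pL4 pL5 pL6 pL7
theorem pD1 : T_D1 := Pool.Agent.H58.BL.D1.pf pA1a pA5 pL8 pL1 pG6
theorem pD2 : T_D2 := Pool.Agent.H31.BL.D2.d2 pG1 pG2 pG3 pG4 pG5a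
theorem pD : T_D := Pool.Agent.H95.BL.D.d pD1 pD2
theorem pCD : T_CD := Pool.Agent.H34.BL.CD.cd
theorem pM0 : T_M0 := Pool.Agent.H5.BL.M0.m0
theorem pM1 : T_M1 := Pool.Agent.H58.BL.M1.pf pM0 pG2 pG3 pB1 pB3 pB4
theorem pM2 : T_M2 := Pool.Agent.H11.BL.M2.m2 pG5b pB1 pB2 pB3 pB4
theorem pM3 : T_M3 := Pool.Agent.H80.BL.M3.m3 pB1
theorem pM4 : T_M4 := Pool.Agent.H5.BL.M4.m4 pM0 pM2 pM3 pB3
theorem pM5 : T_M5 := Pool.Agent.H95.BL.M5.m5 pM2 pM4 pB3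
theorem pM6 : T_M6 := Pool.Agent.H11.BL.M6.m6 pM0 pM5 pB3
theorem pM7 : T_M7 := Pool.Agent.H5.BL.M7.m7 pM1 pM6
theorem pM8 : T_M8 := Pool.Agent.H79.BL.M8.m8 pM0
theorem pM9 : T_M9 := Pool.Agent.H59.BL.M9.m9 pM7 pM8 pCD pB3
theorem pLY : T_LY := Pool.Agent.H93.BL.LY.ly pM0 pM1 pM5 pM6 pB3
theorem pFI : T_FI := Pool.Agent.H93.BL.LY.fi pLY
theorem pRA : T_RA := Pool.Agent.H22.BL.RA.ra
theorem pSA : T_SA := Pool.Agent.H26.BL.SA.sa pB3
theorem pSB : T_SB := Pool.Agent.H67.BL.SB.sb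
theorem pSC : T_SC := Pool.Agent.H67.BL.SC.sc
theorem pSD : T_SD := Pool.Agent.H95.BL.SD.sd pSA pSB pSC
theorem pC1 : T_C1 := Pool.Agent.H98.BL.C1.c1
theorem pC2 : T_C2 := Pool.Agent.H98.BL.C2.c2 pC1
theorem pC3 : T_C3 := Pool.Agent.H98.BL.C2.c3 pC1 pC2 pB1 pB4
theorem pC4 : T_C4 := Pool.Agent.H80.BL.C4.c4 pG1
theorem pC5 : T_C5 := Pool.Agent.H80.BL.C5.c5 pC4
theorem pQUAD : T_QUAD := Pool.Agent.H22.BL.QUAD.quad pC3 pC5
theorem pGEN : T_GEN := Pool.Agent.H93.BL.GEN2.gen pD pCD pB1 pRA pSD pM9 pFI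

theorem determines (ι : Type) [Fintype ι] (P : Polygon ι) (E : Set ι) (hE : E.Nonempty)
    (h : P.Good E) : P.Determines E := fun X hX hinv hcov =>
  (pGEN ι P E X hE hX hinv hcov).2 h

/-- two unit vectors always lie in a closed half plane -/
lemma two_normals {ι : Type} (P : Polygon ι) (a b : ι) :
    ∃ w : ℂ, w ≠ 0 ∧ 0 ≤ ip w (P.n a) ∧ 0 ≤ ip w (P.n b) := by
  have hab : |ip (P.n a) (P.n b)| ≤ 1 := by
    have := abs_ip_le (P.n a) (P.n b)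
    rwa [P.norm_n, P.norm_n, one_mul] at this
  obtain ⟨h1, -⟩ := abs_le.1 hab
  by_cases h : P.n a + P.n b = 0
  · have hb : P.n b = -P.n a := by
      rw [eq_neg_iff_add_eq_zero, add_comm]; exact h
    refine ⟨P.u a, P.u_ne a, by rw [P.ip_u_n], ?_⟩
    rw [hb, ip_neg_right, P.ip_u_n, neg_zero]
  · refine ⟨P.n a + P.n b, h, ?_, ?_⟩
    · rw [ip_add_left, P.ip_n_n, ip_comm (P.n b)]; linarith
    · rw [ip_add_left, P.ip_n_n]; linarith

theorem allButTwo {ι : Type} [Fintype ι] (P : Polygon ι) (E : Set ι) (a b : ι)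
    (hE : E.Nonempty) (h : ∀ j, j ∉ E → j = a ∨ j = b) : P.Determines E := by
  obtain ⟨w, hw, h1, h2⟩ := two_normals P a b
  refine determines ι P E hE (Polygon.Good.halfplane E w hw fun j hj => ?_)
  rcases h j hj with rfl | rfl
  · exact h1
  · exact h2

/-- The criterion and its applications. -/
theorem statement : Statement := by
  refine ⟨fun ι _ P E hE h => determines ι P E hE h, ?_, ?_, ?_, ?_, ?_⟩
  · intro ι _ P E w hE hw h
    exact determines ι P E hE (Polygon.Good.halfplane E w hw h)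
  · intro ι _ P E a b hE h
    exact allButTwo P E a b hE h
  · intro ι _ P E c r hE hc hr h
    refine determines ι P E hE (Polygon.Good.slanted E c r hc hr fun j hj => ?_)
    rcases h j hj with h1 | h1 | ⟨h1, e, he, h2⟩
    · exact Or.inl h1
    · exact Or.inr (Or.inl h1)
    · exact Or.inr (Or.inr ⟨h1, pC3 ι P E j e he h2⟩)
  · intro P i
    refine allButTwo P {i} (i + 1) (i + 2) (Set.singleton_nonempty i) fun j hj => ?_
    rw [Set.mem_singleton_iff] at hj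
    revert hj
    fin_cases i <;> fin_cases j <;> simp
  · intro P h1 h2 i h3
    exact determines _ P _ (Set.singleton_nonempty i) (pQUAD P h1 h2 i h3)

/-- Infinitely many directions. -/
theorem statement2 : Statement2 := by
  intro ι _ P e X hX hinv hcov
  exact (pGEN ι P {e} X (Set.singleton_nonempty e) hX hinv (by
    rintro _ rfl; exact hcov)).1

end Pool.Agent.H93.BL.Final
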