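import Pool.Agent.H93.BL.LY

/-! # Assembly of the general part -/

namespace Pool.Agent.H93.BL.GEN2

open MeasureTheory Set Pool.Agent.H93.BL

variable {ι : Type} (P : Polygon ι)

lemma reach_nat (f : ℤ → ι × ℝ × ℝ) (hf : ∀ n, P.Step (f n) (f (n + 1))) (a : ℤ) (k : ℕ) :
    Relation.ReflTransGen P.Step (f a) (f (a + k)) := by
  induction k with
  | zero => simp only [Nat.cast_zero, add_zero]; exact Relation.ReflTransGen.refl
  | succ k ih =>
    refine ih.tail ?_
    have := hf (a + k)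
    rw [show a + ((k + 1 : ℕ) : ℤ) = a + k + 1 by push_cast; ring]
    exact this

lemma range_subset_dirs (f : ℤ → ι × ℝ × ℝ) (hf : ∀ n, P.Step (f n) (f (n + 1))) :
    (Set.range fun n => P.dir (f n)) ⊆ P.dirs (f 0) := by
  rintro _ ⟨n, rfl⟩
  refine ⟨f n, ?_, rfl⟩
  rcases le_total 0 n with h | h
  · obtain ⟨k, rfl⟩ := Int.eq_ofNat_of_zero_le h
    left
    have := reach_nat P f hf 0 k
    simpa using this
  · obtain ⟨k, hk⟩ := Int.eq_ofNat_of_zero_le (neg_nonneg.2 h)
    right
    have := reach_nat P f hf n k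
    rw [show n + (k : ℤ) = 0 by omega] at this
    exact this

theorem gen (hD : T_D) (hCD : T_CD) (hB1 : T_B1) (hRA : T_RA) (hSD : T_SD) (hM9 : T_M9)
    (hFI : T_FI) : T_GEN := by
  intro ι _ P E X hE hX hinv hcov
  -- the key fact
  have key : ∀ (E : Set ι), E.Nonempty → (∀ e ∈ E, P.liouville e (X e)ᶜ = 0) →
      ∀ i, ∀ᵐ z ∂(P.liouville i), z ∉ X i → ∃ f : ℤ → ι × ℝ × ℝ, f 0 = (i, z) ∧
        (∀ n, P.Step (f n) (f (n + 1)) ∧ (f n).1 ∉ E) ∧
        (Set.range fun n => P.dir (f n)).Infinite := by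
    intro E hE hcov i
    filter_upwards [hM9 ι P E X hinv hcov i] with z hz hzX
    obtain ⟨f, hf0, hf⟩ := hz hzX
    refine ⟨f, hf0, fun n => ⟨(hf n).1, (hf n).2.2.1⟩, fun hfin => ?_⟩
    refine hD ι P E (Set.range fun n => P.dir (f n)) hE hfin ?_
      (fun n => ((f n).1, P.pos (f n), P.dir (f n))) ?_
    · rintro _ ⟨n, rfl⟩ hdd
      exact (hf n).2.2.2 ((hCD ι P).2.1 hdd)
    · intro n
      exact ⟨((hB1 ι P (f n) (f (n + 1))).2.2.1 (hf n).1).2.2, (hf n).2.2.1, ⟨n, rfl⟩⟩
  refine ⟨fun i => ?_, fun hgood => ?_⟩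
  · filter_upwards [key E hE hcov i] with z hz hzX
    obtain ⟨f, hf0, hf, hinf⟩ := hz hzX
    have := range_subset_dirs P f (fun n => (hf n).1)
    rw [hf0] at this
    exact hinf.mono this
  · -- a criterion: if orbits avoiding `E` have finitely many directions then `X` is everything
    have crit : ∀ (E : Set ι), E.Nonempty → (∀ e ∈ E, P.liouville e (X e)ᶜ = 0) →
        (∀ f : ℤ → ι × ℝ × ℝ, (∀ n, P.Step (f n) (f (n + 1)) ∧ (f n).1 ∉ E) →
          (Set.range fun n => P.dir (f n)).Finite) → ∀ i, P.liouville i (X i)ᶜ = 0 := by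
      intro E hE hcov hfin i
      have h1 : ∀ᵐ z ∂(P.liouville i), z ∈ X i := by
        filter_upwards [key E hE hcov i] with z hz
        by_contra hzX
        obtain ⟨f, -, hf, hinf⟩ := hz hzX
        exact hinf (hfin f hf)
      exact ae_iff.1 h1
    induction hgood with
    | rational E h => exact crit E hE hcov (hRA ι P E h)
    | slanted E c r hc hr h => exact crit E hE hcov (hSD ι P E c r hc hr h)
    | field E S A hA mono side strict _ ih =>
      refine ih (hE.mono subset_union_left) ?_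
      rintro e (he | he)
      · exact hcov e he
      · exact hFI ι P E S X hX hinv hcov A hA mono side strict e he

end Pool.Agent.H93.BL.GEN2
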