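import Pool.Agent.H93.BL.Targets

/-!
# The Lyapunov step

Generalisation of helper79's module K3 (killing step) to an arbitrary measurable function which
does not decrease along the steps ending outside `E`; the proof is the one of K3.
-/

namespace Pool.Agent.H93.BL

open MeasureTheory Set

/-- a function which does not decrease along the steps ending outside `E` and increases strictly
along the steps ending on the side `j` -/
def T_LY : Prop := ∀ (ι : Type) [Fintype ι] (P : Polygon ι) (E : Set ι) (X : ι → Set (ℝ × ℝ)),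
  (∀ i, MeasurableSet (X i)) → P.Invariant X → (∀ e ∈ E, P.liouville e (X e)ᶜ = 0) →
  ∀ F : ι × ℝ × ℝ → ℝ, (∀ i, Measurable fun z : ℝ × ℝ => F (i, z)) →
  (∀ z z', P.Step z z' → z'.1 ∉ E → F z ≤ F z') →
  ∀ j, (j ∉ E → ∀ z z', P.Step z z' → z'.1 = j → F z < F z') → P.liouville j (X j)ᶜ = 0

namespace LY

lemma sum_cancel {ι : Type} [Fintype ι] (a b : ι → ENNReal) (h : ∀ i, a i ≤ b i)
    (hs : ∑ i, b i ≤ ∑ i, a i) (hf : ∀ i, a i ≠ ⊤) (i : ι) : b i ≤ a i := by
  classical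
  rw [← Finset.add_sum_erase Finset.univ b (Finset.mem_univ i),
    ← Finset.add_sum_erase Finset.univ a (Finset.mem_univ i)] at hs
  have h1 : ∑ x ∈ Finset.univ.erase i, a x ≤ ∑ x ∈ Finset.univ.erase i, b x :=
    Finset.sum_le_sum fun x _ => h x
  have h2 : ∑ x ∈ Finset.univ.erase i, a x ≠ ⊤ := ENNReal.sum_ne_top.2 fun x _ => hf x
  have h3 : b i + ∑ x ∈ Finset.univ.erase i, a x ≤ a i + ∑ x ∈ Finset.univ.erase i, a x :=
    le_trans (add_le_add le_rfl h1) hs
  exact (ENNReal.add_le_add_iff_right h2).1 h3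

theorem ly (hM0 : T_M0) (hM1 : T_M1) (hM5 : T_M5) (hM6 : T_M6) (hB3 : T_B3) : T_LY := by
  classical
  intro ι _ P E X hX hinv hE F hF hmono j hj
  by_cases hjE : j ∈ E
  · exact hE j hjE
  replace hj := hj hjE
  set B : ℝ → ι → Set (ℝ × ℝ) := fun c i => {z | z ∉ X i ∧ c < F (i, z)} with hB
  set TB : ℝ → ι → Set (ℝ × ℝ) := fun c i => {z | ∃ z', P.Step (i, z) z' ∧ z'.2 ∈ B c z'.1} with hTB
  set N : ι → Set (ℝ × ℝ) := fun k => if k ∈ E then (X k)ᶜ else ∅ with hN
  have hN0 : ∀ i, P.liouville i (N i) = 0 := by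
    intro i
    by_cases hi : i ∈ E
    · simp only [hN, hi, if_true]; exact hE i hi
    · simp only [hN, hi, if_false, measure_empty]
  have hNpre := (hM6 ι P N hN0).1
  have hfin : ∀ i (S : Set (ℝ × ℝ)), P.liouville i S ≠ ⊤ := fun i S =>
    ((measure_mono (subset_univ S)).trans_lt ((hM0 ι P i ∅).2.2.2)).ne
  have hBm : ∀ c i, MeasurableSet (B c i) := by
    intro c i
    exact (hX i).compl.inter ((hF i) measurableSet_Ioi)
  -- the good points
  have hgood : ∀ i, ∀ᵐ z ∂(P.liouville i), ∃ z', P.Step (i, z) z' ∧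
      (z ∉ X i → z'.2 ∉ X z'.1 ∧ z'.1 ∉ E) := by
    intro i
    have h3 : ∀ᵐ z ∂(P.liouville i), ¬ ∃ z', P.Step (i, z) z' ∧ z'.2 ∈ N z'.1 :=
      compl_mem_ae_iff.2 (hNpre i)
    filter_upwards [(hM1 ι P i).1, hinv i, h3] with z h1 h2 h3
    obtain ⟨z', hz'⟩ := h1
    refine ⟨z', hz', fun hz => ?_⟩
    have h4 : z'.2 ∉ X z'.1 := fun h => hz (h2.1 ⟨z', hz', h⟩)
    refine ⟨h4, fun h5 => h3 ⟨z', hz', ?_⟩⟩
    simp only [hN, h5, if_true]; exact h4
  -- (1)
  have hsub : ∀ c i, B c i ≤ᵐ[P.liouville i] TB c i := by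
    intro c i
    filter_upwards [hgood i] with z hz hzB
    obtain ⟨z', hz', hg⟩ := hz
    obtain ⟨h1, h2⟩ := hg hzB.1
    exact ⟨z', hz', h1, lt_of_lt_of_le hzB.2 (hmono _ _ hz' h2)⟩
  -- (2)
  have heq : ∀ c i, B c i =ᵐ[P.liouville i] TB c i := by
    intro c i
    refine ae_eq_of_ae_subset_of_measure_ge (hsub c i) ?_ (hBm c i).nullMeasurableSet (hfin i _)
    exact sum_cancel (fun i => P.liouville i (B c i)) (fun i => P.liouville i (TB c i))
      (fun i => measure_mono_ae (hsub c i)) (hM5 ι P (B c) (hBm c)) (fun i => hfin i _) i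
  -- (3)
  have hall : ∀ i, ∀ᵐ z ∂(P.liouville i), ∀ c : ℚ, z ∈ TB c i → z ∈ B c i := by
    intro i
    rw [ae_all_iff]
    intro c
    filter_upwards [heq c i] with z hz hz'
    exact (iff_of_eq hz).2 hz'
  have hN1 : ∀ i, P.liouville i {z | z ∉ X i ∧ ∃ z', P.Step (i, z) z' ∧ z'.1 = j} = 0 := by
    intro i
    refine measure_mono_null ?_ (ae_iff.1 ((hgood i).and (hall i)))
    rintro z ⟨hzX, z', hz', hz'j⟩ ⟨⟨z'', hz'', hg⟩, hc⟩
    have he : z'' = z' := (hB3 ι P (i, z) z'' z').1 hz'' hz'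
    subst he
    obtain ⟨h1, h2⟩ := hg hzX
    have hpos : F (i, z) < F z'' := hj (i, z) z'' hz' hz'j
    obtain ⟨c, hc1, hc2⟩ := exists_rat_btwn hpos
    have h6 := hc c ⟨z'', hz', h1, hc2⟩
    exact absurd h6.2 (not_lt.2 hc1.le)
  -- (4)
  set N2 : ι → Set (ℝ × ℝ) := fun i =>
    {z | z ∉ X i ∧ ∃ z', P.Step (i, z) z' ∧ z'.1 = j} ∪
      {z | ¬ ((∃ z', P.Step (i, z) z' ∧ z'.2 ∈ X z'.1) ↔ z ∈ X i)} with hN2
  have hN20 : ∀ i, P.liouville i (N2 i) = 0 := fun i =>
    measure_union_null (hN1 i) (ae_iff.1 (hinv i))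
  have hN2im := (hM6 ι P N2 hN20).2 j
  have h7 : ∀ᵐ z ∂(P.liouville j), ¬ ∃ z', P.Step z' (j, z) ∧ z'.2 ∈ N2 z'.1 :=
    compl_mem_ae_iff.2 hN2im
  have h8 : ∀ᵐ z ∂(P.liouville j), z ∈ X j := by
    filter_upwards [(hM1 ι P j).2, h7] with z h1 h2
    obtain ⟨z', hz'⟩ := h1
    by_contra hz
    apply h2
    refine ⟨z', hz', ?_⟩
    by_cases h9 : (∃ y, P.Step (z'.1, z'.2) y ∧ y.2 ∈ X y.1) ↔ z'.2 ∈ X z'.1
    · left
      refine ⟨fun h => ?_, (j, z), hz', rfl⟩
      obtain ⟨y, hy, hyX⟩ := h9.2 h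
      have : y = (j, z) := (hB3 ι P z' y (j, z)).1 hy hz'
      subst this
      exact hz hyX
    · right; exact h9
  exact ae_iff.1 h8

end LY

/-- the step for a monotone vector field -/
def T_FI : Prop := ∀ (ι : Type) [Fintype ι] (P : Polygon ι) (E S : Set ι)
  (X : ι → Set (ℝ × ℝ)),
  (∀ i, MeasurableSet (X i)) → P.Invariant X → (∀ e ∈ E, P.liouville e (X e)ᶜ = 0) →
  ∀ A : ℂ → ℂ, Measurable A →
  (∀ x y, P.Sees x y → 0 ≤ ip (A y - A x) (y - x)) →
  (∀ j, j ∉ E → ∀ x ∈ openSegment ℝ (P.p j) (P.q j), 0 ≤ ip (A x) (P.n j)) →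
  (∀ j ∈ S, ∀ y ∈ openSegment ℝ (P.p j) (P.q j), 0 < ip (A y) (P.n j) ∨
    ∀ x, x ≠ y → P.Sees x y → 0 < ip (A y - A x) (y - x)) →
  ∀ j ∈ S, P.liouville j (X j)ᶜ = 0

namespace LY

theorem fi (hLY : T_LY) : T_FI := by
  intro ι _ P E S X hX hinv hE A hA mono side strict j hj
  have hcont : ∀ i, Measurable fun z : ℝ × ℝ => ip (A (P.pos (i, z))) (P.dir (i, z)) := by
    intro i
    have h1 : Measurable fun z : ℝ × ℝ => P.pos (i, z) := by
      unfold Polygon.pos
      have : Continuous fun z : ℝ × ℝ => P.p i + (z.1 : ℂ) * P.u i := by fun_prop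
      exact this.measurable
    have h2 : Measurable fun z : ℝ × ℝ => P.dir (i, z) := by
      unfold Polygon.dir
      have : Continuous fun z : ℝ × ℝ => P.n i * Complex.exp ((z.2 : ℂ) * Complex.I) := by
        fun_prop
      exact this.measurable
    have h3 : Measurable fun z : ℝ × ℝ => A (P.pos (i, z)) := hA.comp h1
    unfold ip
    exact ((Complex.measurable_re.comp h3).mul (Complex.measurable_re.comp h2)).add
      ((Complex.measurable_im.comp h3).mul (Complex.measurable_im.comp h2))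
  -- the increment of the functional along a step
  have hinc : ∀ z z', P.Step z z' → ∃ t > (0 : ℝ), P.pos z' - P.pos z = (t : ℂ) * P.dir z ∧
      P.Sees (P.pos z) (P.pos z') ∧
      ip (A (P.pos z')) (P.dir z') = ip (A (P.pos z)) (P.dir z) +
        ip (A (P.pos z') - A (P.pos z)) (P.dir z) +
        2 * Real.cos z'.2.2 * ip (A (P.pos z')) (P.n z'.1) := by
    intro z z' hs
    obtain ⟨h1, h2, t, ht, hpos, hΩ, hdir⟩ := hs
    refine ⟨t, ht, by rw [hpos]; ring, ?_, ?_⟩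
    · intro r hr
      have := hΩ (r * t) ⟨mul_pos hr.1 ht, by nlinarith [hr.2]⟩
      rw [hpos, show P.pos z + (r : ℂ) * (P.pos z + (t : ℂ) * P.dir z - P.pos z)
        = P.pos z + ((r * t : ℝ) : ℂ) * P.dir z by push_cast; ring]
      exact this
    · have h3 : P.refl z'.1 (P.dir z') = P.dir z := by rw [hdir, P.refl_refl]
      have h4 : P.dir z' = P.dir z + ((2 * Real.cos z'.2.2 : ℝ) : ℂ) * P.n z'.1 := by
        rw [← h3, P.refl_eq, P.ip_dir_n]; ring
      rw [h4, ip_add_right, ip_smul_right, ip_sub_left]; ring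
  have hinc0 : ∀ z z', P.Step z z' → 0 ≤ ip (A (P.pos z') - A (P.pos z)) (P.dir z) := by
    intro z z' hs
    obtain ⟨t, ht, h1, h2, -⟩ := hinc z z' hs
    have h3 := mono _ _ h2
    rw [h1, ip_smul_right] at h3
    exact nonneg_of_mul_nonneg_right h3 ht
  refine hLY ι P E X hX hinv hE (fun z => ip (A (P.pos z)) (P.dir z)) hcont ?_ j ?_
  · intro z z' hs hz'
    obtain ⟨t, ht, h1, h2, h3⟩ := hinc z z' hs
    have h4 := hinc0 z z' hs
    have h5 := side z'.1 hz' _ (P.pos_mem hs.2.1)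
    have h6 := P.cos_pos_of_phase hs.2.1
    have h7 := mul_nonneg h6.le h5
    change ip (A (P.pos z)) (P.dir z) ≤ ip (A (P.pos z')) (P.dir z')
    rw [h3]; nlinarith
  · intro hjE z z' hs hz'
    obtain ⟨t, ht, h1, h2, h3⟩ := hinc z z' hs
    have h4 := hinc0 z z' hs
    have hm : P.pos z' ∈ openSegment ℝ (P.p j) (P.q j) := by
      rw [← hz']; exact P.pos_mem hs.2.1
    have h6 := P.cos_pos_of_phase hs.2.1
    change ip (A (P.pos z)) (P.dir z) < ip (A (P.pos z')) (P.dir z')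
    rcases strict j hj _ hm with h | h
    · rw [h3, hz']
      have := mul_pos h6 h
      nlinarith
    · have hne : P.pos z ≠ P.pos z' := by
        intro he
        rw [he, sub_self] at h1
        have hd : P.dir z ≠ 0 := by
          intro h0; have := P.norm_dir z; rw [h0, norm_zero] at this; exact zero_ne_one this
        have ht' : (t : ℂ) ≠ 0 := by exact_mod_cast ht.ne'
        exact (mul_ne_zero ht' hd) h1.symm
      have h8 := h _ hne h2
      rw [h1, ip_smul_right] at h8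
      have h9 : 0 < ip (A (P.pos z') - A (P.pos z)) (P.dir z) := (mul_pos_iff_of_pos_left ht).1 h8
      have h5 := side j hjE _ hm
      have h7 := mul_nonneg h6.le h5
      rw [h3, hz']
      nlinarith

end LY

end Pool.Agent.H93.BL
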