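import Mathlib

/-!
# Polygonal billiards: invariant sets containing the phase space of one side

The statement layer (definitions only) for the problem `MP_009700_an`.
Points and vectors of the plane are complex numbers.
-/

namespace Pool.Agent.H93.BL

open MeasureTheory Set

/-- Scalar product of plane vectors. -/
def ip (a b : ℂ) : ℝ := a.re * b.re + a.im * b.im

/-- Cross product of plane vectors. -/
def cr (a b : ℂ) : ℝ := a.re * b.im - a.im * b.re

/-- A polygonal table with sides indexed by `ι`.  `Ω` is the interior of the table, the side `i`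
is the segment from `p i` to `q i`, and the table lies on the left of every side.  A slit is given
by two sides with the same end points and opposite orientations. -/
structure Polygon (ι : Type) where
  /-- interior of the table (without the slits) -/
  Ω : Set ℂ
  /-- start point of a side -/
  p : ι → ℂ
  /-- end point of a side -/
  q : ι → ℂ
  isOpen : IsOpen Ω
  isConnected : IsConnected Ω
  isBounded : Bornology.IsBounded Ω
  ne : ∀ i, p i ≠ q i
  frontier_eq : frontier Ω = ⋃ i, segment ℝ (p i) (q i)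
  left : ∀ i, ∀ x ∈ openSegment ℝ (p i) (q i),
    ∃ ε > (0 : ℝ), ∀ t ∈ Ioo 0 ε, x + (t : ℂ) * (Complex.I * (q i - p i)) ∈ Ω
  meet : ∀ i j, i ≠ j →
    Disjoint (openSegment ℝ (p i) (q i)) (segment ℝ (p j) (q j)) ∨ (p j = q i ∧ q j = p i)
  slit : ∀ i, ∀ x ∈ openSegment ℝ (p i) (q i),
    (∃ ε > (0 : ℝ), ∀ t ∈ Ioo 0 ε, x - (t : ℂ) * (Complex.I * (q i - p i)) ∈ Ω) →
    ∃ j, p j = q i ∧ q j = p i

namespace Polygon

variable {ι : Type} (P : Polygon ι)

/-- Length of the side `i`. -/
noncomputable def len (i : ι) : ℝ := ‖P.q i - P.p i‖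

/-- Unit direction of the side `i`. -/
noncomputable def u (i : ι) : ℂ := (P.q i - P.p i) / (P.len i : ℂ)

/-- Inner unit normal of the side `i`. -/
noncomputable def n (i : ι) : ℂ := Complex.I * P.u i

/-- Reflection of directions in the side `i`. -/
noncomputable def refl (i : ι) (v : ℂ) : ℂ := P.u i ^ 2 * (starRingEnd ℂ) v

/-- Phase points are triples `(i, s, φ)`: a side, the arclength from its start point, and the
angle between the direction and the inner normal. -/
def Phase (z : ι × ℝ × ℝ) : Prop :=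
  0 < z.2.1 ∧ z.2.1 < P.len z.1 ∧ -(Real.pi / 2) < z.2.2 ∧ z.2.2 < Real.pi / 2

/-- Position of a phase point. -/
noncomputable def pos (z : ι × ℝ × ℝ) : ℂ := P.p z.1 + (z.2.1 : ℂ) * P.u z.1

/-- Direction of a phase point. -/
noncomputable def dir (z : ι × ℝ × ℝ) : ℂ := P.n z.1 * Complex.exp ((z.2.2 : ℂ) * Complex.I)

/-- The billiard map as a relation. -/
def Step (z z' : ι × ℝ × ℝ) : Prop :=
  P.Phase z ∧ P.Phase z' ∧ ∃ t > (0 : ℝ), P.pos z' = P.pos z + (t : ℂ) * P.dir z ∧
    (∀ r ∈ Ioo 0 t, P.pos z + (r : ℂ) * P.dir z ∈ P.Ω) ∧ P.dir z' = P.refl z'.1 (P.dir z)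

/-- Liouville measure on the phase space of the side `i` in the coordinates `(s, φ)`. -/
noncomputable def liouville (i : ι) : Measure (ℝ × ℝ) :=
  (volume.restrict (Ioo 0 (P.len i) ×ˢ Ioo (-(Real.pi / 2)) (Real.pi / 2))).withDensity
    (fun z => ENNReal.ofReal (Real.cos z.2))

/-- A family `X i` of subsets of the phase spaces of the sides is invariant up to null sets. -/
def Invariant (X : ι → Set (ℝ × ℝ)) : Prop :=
  ∀ i, ∀ᵐ z ∂(P.liouville i), ((∃ z', P.Step (i, z) z' ∧ z'.2 ∈ X z'.1) ↔ z ∈ X i)

/-- Every invariant set which contains the phase spaces of all sides in `E` is everything, up to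
null sets.  The problem asks for this for every polygon and every `E = {i}`. -/
def Determines (E : Set ι) : Prop :=
  ∀ X : ι → Set (ℝ × ℝ), (∀ i, MeasurableSet (X i)) → P.Invariant X →
    (∀ e ∈ E, P.liouville e (X e)ᶜ = 0) → ∀ i, P.liouville i (X i)ᶜ = 0

/-- Directions of the two sided orbit of a phase point. -/
def dirs (z : ι × ℝ × ℝ) : Set ℂ :=
  {w | ∃ z', (Relation.ReflTransGen P.Step z z' ∨ Relation.ReflTransGen P.Step z' z) ∧
    w = P.dir z'}

/-- All orbits leaving the side `j` with a small angle to the side, in one of its two directions,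
reach a side in `E`. -/
def Grazing (E : Set ι) (j : ι) : Prop :=
  ∃ m < (1 : ℝ),
    (∀ s φ : ℝ, P.Phase (j, s, φ) → m < Real.sin φ →
      ∃ z, Relation.ReflTransGen P.Step (j, s, φ) z ∧ z.1 ∈ E) ∨
    (∀ s φ : ℝ, P.Phase (j, s, φ) → m < - Real.sin φ →
      ∃ z, Relation.ReflTransGen P.Step (j, s, φ) z ∧ z.1 ∈ E)

/-- `q j = p e` is a convex corner between `j` and `e` -/
def Corner (j e : ι) : Prop :=
  P.q j = P.p e ∧ 0 < cr (P.u j) (P.u e) ∧ ∃ ρ > (0 : ℝ), ∀ a ∈ Ioo 0 ρ, ∀ b ∈ Ioo 0 ρ,
    P.q j - (a : ℂ) * P.u j + (b : ℂ) * P.u e ∈ P.Ω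

/-- The open segment from `x` to `y` lies in the table. -/
def Sees (x y : ℂ) : Prop := ∀ r ∈ Ioo (0 : ℝ) 1, x + (r : ℂ) * (y - x) ∈ P.Ω

/-- The inductive class of sets of sides for which the theorem is proved. -/
inductive Good : Set ι → Prop
  /-- the sides outside `E` make rational angles with each other -/
  | rational (E : Set ι) (h : ∀ i, i ∉ E → ∀ j, j ∉ E → ∃ m : ℕ, 0 < m ∧ (P.u i / P.u j) ^ m = 1) :
      Good E
  /-- the sides outside `E` are parallel or perpendicular to a fixed line `g`, or make one fixed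
  angle with `g`, and all orbits grazing a side of the last kind reach `E` -/
  | slanted (E : Set ι) (c r : ℂ) (hc : ‖c‖ = 1) (hr : ‖r‖ = 1)
      (h : ∀ j, j ∉ E → P.u j ^ 2 = c ∨ P.u j ^ 2 = -c ∨
        ((P.u j ^ 2 = r * c ∨ r * P.u j ^ 2 = c) ∧ P.Grazing E j)) : Good E
  /-- a vector field `A`, monotone along the segments in the table, points into the table along
  all sides outside `E`; for every side in `S` this holds strictly, or `A` is strictly monotone
  along all segments ending on the side -/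
  | field (E S : Set ι) (A : ℂ → ℂ) (hA : Measurable A)
      (mono : ∀ x y, P.Sees x y → 0 ≤ ip (A y - A x) (y - x))
      (side : ∀ j, j ∉ E → ∀ x ∈ openSegment ℝ (P.p j) (P.q j), 0 ≤ ip (A x) (P.n j))
      (strict : ∀ j ∈ S, ∀ y ∈ openSegment ℝ (P.p j) (P.q j), 0 < ip (A y) (P.n j) ∨
        ∀ x, x ≠ y → P.Sees x y → 0 < ip (A y - A x) (y - x))
      (h : Good (E ∪ S)) : Good E

end Polygon

end Pool.Agent.H93.BL
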