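import Pool.Agent.H93.BL.Basic

/-!
# Polygonal billiards: definitions and targets of the modules
-/

namespace Pool.Agent.H93.BL

open MeasureTheory Set

/-! ## Abstract interval systems with holes -/

/-- A partially defined injective map of a finite disjoint union of open intervals `(a k, b k)`,
locally of the form `t ↦ c - t`, with open sets `ex` (points that leave) and `en` (points that
enter) and finitely many singular points. -/
structure HoleSys (κ : Type) where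
  a : κ → ℝ
  b : κ → ℝ
  st : κ × ℝ → κ × ℝ → Prop
  ex : κ × ℝ → Prop
  en : κ × ℝ → Prop
  st_mem : ∀ z z', st z z' → (a z.1 < z.2 ∧ z.2 < b z.1) ∧ (a z'.1 < z'.2 ∧ z'.2 < b z'.1)
  ex_mem : ∀ z, ex z → a z.1 < z.2 ∧ z.2 < b z.1
  en_mem : ∀ z, en z → a z.1 < z.2 ∧ z.2 < b z.1
  fn : ∀ z z' z'', st z z' → st z z'' → z' = z''
  inj : ∀ z z' z'', st z z'' → st z' z'' → z = z'
  loc : ∀ k t k' t', st (k, t) (k', t') →
    ∃ ε > (0 : ℝ), ∀ δ, |δ| < ε → st (k, t + δ) (k', t' - δ)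
  ex_loc : ∀ k t, ex (k, t) → ∃ ε > (0 : ℝ), ∀ δ, |δ| < ε → ex (k, t + δ)
  en_loc : ∀ k t, en (k, t) → ∃ ε > (0 : ℝ), ∀ δ, |δ| < ε → en (k, t + δ)
  ex_st : ∀ z z', ex z → ¬ st z z'
  en_st : ∀ z z', en z' → ¬ st z z'
  sf_fin : {z : κ × ℝ | (a z.1 < z.2 ∧ z.2 < b z.1) ∧ ¬ ex z ∧ ∀ z', ¬ st z z'}.Finite
  sb_fin : {z : κ × ℝ | (a z.1 < z.2 ∧ z.2 < b z.1) ∧ ¬ en z ∧ ∀ z', ¬ st z' z}.Finite

namespace HoleSys

variable {κ : Type} (S : HoleSys κ)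

/-- membership in the union of the intervals -/
def mem (z : κ × ℝ) : Prop := S.a z.1 < z.2 ∧ z.2 < S.b z.1

/-- forward singular points -/
def sf (z : κ × ℝ) : Prop := S.mem z ∧ ¬ S.ex z ∧ ∀ z', ¬ S.st z z'

/-- backward singular points -/
def sb (z : κ × ℝ) : Prop := S.mem z ∧ ¬ S.en z ∧ ∀ z', ¬ S.st z' z

/-- chains of `n` steps -/
def chain : ℕ → κ × ℝ → κ × ℝ → Prop
  | 0, z, z' => z = z'
  | n + 1, z, z' => ∃ y, S.st z y ∧ chain n y z'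

/-- the orbit reaches a hole, forwards or backwards -/
def U (z : κ × ℝ) : Prop :=
  (∃ n z', S.chain n z z' ∧ S.ex z') ∨ (∃ n z', S.chain n z' z ∧ S.en z')

end HoleSys

def T_A1a : Prop := ∀ (κ : Type) (S : HoleSys κ) (m n : ℕ) (z z'' : κ × ℝ),
  S.chain (m + n) z z'' ↔ ∃ z', S.chain m z z' ∧ S.chain n z' z''

def T_A1b : Prop := ∀ (κ : Type) (S : HoleSys κ) (n : ℕ) (z z' z'' : κ × ℝ),
  S.chain n z z' → S.chain n z z'' → z' = z''

def T_A1c : Prop := ∀ (κ : Type) (S : HoleSys κ) (n : ℕ) (z z' z'' : κ × ℝ),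
  S.chain n z z'' → S.chain n z' z'' → z = z'

def T_A1d : Prop := ∀ (κ : Type) (S : HoleSys κ) (n : ℕ) (k k' : κ) (t t' : ℝ),
  S.chain n (k, t) (k', t') →
    ∃ ε > (0 : ℝ), ∀ δ, |δ| < ε → S.chain n (k, t + δ) (k', t' + (-1) ^ n * δ)

/-- wandering: an interval of entrance points cannot stay forever -/
def T_A2 : Prop := ∀ (κ : Type) [Finite κ] (S : HoleSys κ) (k : κ) (t ρ : ℝ), 0 < ρ →
  (∀ δ, |δ| < ρ → S.en (k, t + δ)) →
  (∀ δ, |δ| < ρ → ∀ n, ∃ z', S.chain n (k, t + δ) z') → False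

def T_A3 : Prop := ∀ (κ : Type) [Finite κ] (S : HoleSys κ),
  ∃ N : ℕ, ∀ n z z', S.en z → S.chain n z z' → n ≤ N

def T_A4 : Prop := ∀ (κ : Type) [Finite κ] (S : HoleSys κ),
  ∃ N : ℕ, ∀ n z z', S.ex z' → S.chain n z z' → n ≤ N

/-- without chains from a backward singular point to a forward singular point, the set `U` is
everything or nothing on each interval -/
def T_A5 : Prop := ∀ (κ : Type) [Finite κ] (S : HoleSys κ),
  (∀ n z z', S.chain n z z' → S.sb z → S.sf z' → False) →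
  ∀ k t t', S.mem (k, t) → S.mem (k, t') → S.U (k, t) → S.U (k, t')

/-! ## Geometry -/

namespace Polygon

variable {ι : Type} (P : Polygon ι)

/-- vertices -/
def Vtx (w : ℂ) : Prop := ∃ i, w = P.p i ∨ w = P.q i

/-- `x` is an inner point of the side `j` and `v` is a unit vector pointing into the table -/
def inn (j : ι) (x v : ℂ) : Prop :=
  x ∈ openSegment ℝ (P.p j) (P.q j) ∧ ‖v‖ = 1 ∧ 0 < ip v (P.n j)

/-- the ray from `y` in direction `v` starts inside the table -/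
def Start (y v : ℂ) : Prop := ∃ ε > (0 : ℝ), ∀ r ∈ Ioo 0 ε, y + (r : ℂ) * v ∈ P.Ω

/-- the ray from `y` in direction `v` first hits the boundary at time `t` in an inner point of the
side `j`, coming from the left of `j` -/
def Hit (y v : ℂ) (j : ι) (t : ℝ) : Prop :=
  0 < t ∧ (∀ r ∈ Ioo 0 t, y + (r : ℂ) * v ∈ P.Ω) ∧
    y + (t : ℂ) * v ∈ openSegment ℝ (P.p j) (P.q j) ∧ ip v (P.n j) < 0

/-- the ray from `y` in direction `v` first hits the boundary at time `t` in the vertex `w` -/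
def VHit (y v w : ℂ) (t : ℝ) : Prop :=
  0 < t ∧ (∀ r ∈ Ioo 0 t, y + (r : ℂ) * v ∈ P.Ω) ∧ y + (t : ℂ) * v = w ∧ P.Vtx w

/-- The billiard map on triples `(side, position, direction)`. -/
def GStep (z z' : ι × ℂ × ℂ) : Prop :=
  P.inn z.1 z.2.1 z.2.2 ∧ ∃ t, P.Hit z.2.1 z.2.2 z'.1 t ∧ z'.2.1 = z.2.1 + (t : ℂ) * z.2.2 ∧
    z'.2.2 = P.refl z'.1 z.2.2

/-- Time reversal. -/
noncomputable def rev (z : ι × ℂ × ℂ) : ι × ℂ × ℂ := (z.1, z.2.1, - P.refl z.1 z.2.2)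

/-- composition of the affine reflections of a list of sides -/
noncomputable def affL (l : List ι) (y : ℂ) : ℂ := l.foldr (fun i y => P.aff i y) y

/-- composition of the linear reflections of a list of sides -/
noncomputable def reflL (l : List ι) (v : ℂ) : ℂ := l.foldr (fun i v => P.refl i v) v

/-- directions of generalized diagonals -/
def DD : Set ℂ := {d | ∃ (l : List ι) (w w' : ℂ), P.Vtx w ∧ P.Vtx w' ∧ P.affL l w' - w ≠ 0 ∧
  d = (P.affL l w' - w) / (‖P.affL l w' - w‖ : ℂ)}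

/-- directions whose images under the reflection group contain the direction of a generalized
diagonal -/
def DDp : Set ℂ := {v | ∃ l : List ι, P.reflL l v ∈ P.DD}

/-! ### the interval system of a finite set of directions -/

/-- A leg: a side outside `E` together with an inward direction in `C` whose mirror image is in
`C`. -/
def Leg (E : Set ι) (C : Set ℂ) : Set (ι × ℂ) :=
  {k | k.1 ∉ E ∧ k.2 ∈ C ∧ P.refl k.1 k.2 ∈ C ∧ ‖k.2‖ = 1 ∧ 0 < ip k.2 (P.n k.1)}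

section legs
variable (E : Set ι) (C : Set ℂ)

/-- left end of the interval of a leg -/
noncomputable def la (k : P.Leg E C) : ℝ := cr k.1.2 (P.q k.1.1)

/-- right end of the interval of a leg -/
noncomputable def lb (k : P.Leg E C) : ℝ := cr k.1.2 (P.p k.1.1)

/-- the point `x` of the line of the side of the leg `k = (j, v)` with `cr v x = t` -/
noncomputable def lpt (k : P.Leg E C) (t : ℝ) : ℂ :=
  P.p k.1.1 + (((cr k.1.2 (P.p k.1.1) - t) / ip k.1.2 (P.n k.1.1) : ℝ) : ℂ) * P.u k.1.1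

/-- the phase point of a point of the interval system -/
noncomputable def lz (z : P.Leg E C × ℝ) : ι × ℂ × ℂ := (z.1.1.1, P.lpt E C z.1 z.2, z.1.1.2)

def lst (z z' : P.Leg E C × ℝ) : Prop := P.GStep (P.lz E C z) (P.lz E C z')

def lex (z : P.Leg E C × ℝ) : Prop := (P.la E C z.1 < z.2 ∧ z.2 < P.lb E C z.1) ∧
  ∃ j τ, P.Hit (P.lz E C z).2.1 (P.lz E C z).2.2 j τ ∧
    (j ∈ E ∨ P.refl j (P.lz E C z).2.2 ∉ C)

def len' (z : P.Leg E C × ℝ) : Prop := (P.la E C z.1 < z.2 ∧ z.2 < P.lb E C z.1) ∧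
  ∃ j τ, P.Hit (P.lz E C z).2.1 (- P.refl (P.lz E C z).1 (P.lz E C z).2.2) j τ ∧
    (j ∈ E ∨ P.refl j (P.refl (P.lz E C z).1 (P.lz E C z).2.2) ∉ C)

end legs

end Polygon

/-- half disc structure of the table at an inner point of a side -/
def T_G1 : Prop := ∀ (ι : Type) [Finite ι] (P : Polygon ι) (j : ι),
  ∀ x ∈ openSegment ℝ (P.p j) (P.q j), ∃ ρ > (0 : ℝ),
    (∀ y, dist y x < ρ → 0 < ip (y - x) (P.n j) → y ∈ P.Ω) ∧
    (∀ y, dist y x < ρ → ip (y - x) (P.n j) = 0 → y ∈ openSegment ℝ (P.p j) (P.q j)) ∧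
    (∀ y, dist y x < ρ → y ∈ frontier P.Ω → ip (y - x) (P.n j) = 0) ∧
    ((∃ y, dist y x < ρ ∧ ip (y - x) (P.n j) < 0 ∧ y ∈ P.Ω) →
      ∃ j', P.p j' = P.q j ∧ P.q j' = P.p j)

/-- a ray from an inner point of a side pointing inwards starts in the table -/
def T_G2 : Prop := ∀ (ι : Type) [Finite ι] (P : Polygon ι) (j : ι) (x v : ℂ),
  x ∈ openSegment ℝ (P.p j) (P.q j) → 0 < ip v (P.n j) → P.Start x v

/-- first exit -/
def T_G3 : Prop := ∀ (ι : Type) [Finite ι] (P : Polygon ι) (y v : ℂ), v ≠ 0 → P.Start y v →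
  ∃ t, (∃ j, P.Hit y v j t) ∨ (∃ w, P.VHit y v w t)

/-- uniqueness of the first exit -/
def T_G4 : Prop := ∀ (ι : Type) (P : Polygon ι) (y v : ℂ),
  (∀ j j' t t', P.Hit y v j t → P.Hit y v j' t' → t = t' ∧ j = j') ∧
  (∀ j t w t', P.Hit y v j t → ¬ P.VHit y v w t') ∧
  (∀ w w' t t', P.VHit y v w t → P.VHit y v w' t' → t = t' ∧ w = w')

/-- the hit side is locally constant, start points inside -/
def T_G5a : Prop := ∀ (ι : Type) [Finite ι] (P : Polygon ι) (y v : ℂ) (j : ι) (t : ℝ),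
  y ∈ P.Ω → P.Hit y v j t →
    ∃ ε > (0 : ℝ), ∀ y' v', dist y' y < ε → dist v' v < ε → ∃ t', P.Hit y' v' j t'

/-- the hit side is locally constant, start points on a side -/
def T_G5b : Prop := ∀ (ι : Type) [Finite ι] (P : Polygon ι) (i : ι) (y v : ℂ) (j : ι) (t : ℝ),
  y ∈ openSegment ℝ (P.p i) (P.q i) → 0 < ip v (P.n i) → P.Hit y v j t →
    ∃ ε > (0 : ℝ), ∀ y' ∈ openSegment ℝ (P.p i) (P.q i), ∀ v', dist y' y < ε → dist v' v < ε →
      ∃ t', P.Hit y' v' j t'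

/-- time reversal and uniqueness for the billiard map -/
def T_G6 : Prop := ∀ (ι : Type) (P : Polygon ι) (z z' z'' : ι × ℂ × ℂ),
  (P.GStep z z' → P.GStep (P.rev z') (P.rev z)) ∧
  (P.rev (P.rev z) = z) ∧
  (P.GStep z z' → P.inn z'.1 z'.2.1 z'.2.2) ∧
  (P.GStep z z' → P.GStep z z'' → z' = z'') ∧
  (P.GStep z z'' → P.GStep z' z'' → z = z')

/-! ## The interval system of a finite set of directions -/

/-- parametrisation of the legs -/
def T_L1 : Prop := ∀ (ι : Type) (P : Polygon ι) (E : Set ι) (C : Set ℂ) (k : P.Leg E C),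
  (∀ t, cr k.1.2 (P.lpt E C k t) = t) ∧
  (∀ t, (P.la E C k < t ∧ t < P.lb E C k) ↔
    P.lpt E C k t ∈ openSegment ℝ (P.p k.1.1) (P.q k.1.1)) ∧
  (∀ x ∈ openSegment ℝ (P.p k.1.1) (P.q k.1.1), P.lpt E C k (cr k.1.2 x) = x) ∧
  (∀ t t', dist (P.lpt E C k t) (P.lpt E C k t') = |t - t'| / ip k.1.2 (P.n k.1.1))

/-- the algebraic properties of the interval system -/
def T_L2 : Prop := ∀ (ι : Type) (P : Polygon ι) (E : Set ι) (C : Set ℂ),
  (∀ z z', P.lst E C z z' → (P.la E C z.1 < z.2 ∧ z.2 < P.lb E C z.1) ∧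
    (P.la E C z'.1 < z'.2 ∧ z'.2 < P.lb E C z'.1)) ∧
  (∀ z z' z'', P.lst E C z z' → P.lst E C z z'' → z' = z'') ∧
  (∀ z z' z'', P.lst E C z z'' → P.lst E C z' z'' → z = z') ∧
  (∀ z z', P.lex E C z → ¬ P.lst E C z z') ∧
  (∀ z z', P.len' E C z' → ¬ P.lst E C z z')

/-- local form of the map -/
def T_L3 : Prop := ∀ (ι : Type) [Finite ι] (P : Polygon ι) (E : Set ι) (C : Set ℂ)
  (k : P.Leg E C) (t : ℝ) (k' : P.Leg E C) (t' : ℝ), P.lst E C (k, t) (k', t') →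
    ∃ ε > (0 : ℝ), ∀ δ, |δ| < ε → P.lst E C (k, t + δ) (k', t' - δ)

/-- the exit and entrance sets are open -/
def T_L4 : Prop := ∀ (ι : Type) [Finite ι] (P : Polygon ι) (E : Set ι) (C : Set ℂ)
  (k : P.Leg E C) (t : ℝ),
  (P.lex E C (k, t) → ∃ ε > (0 : ℝ), ∀ δ, |δ| < ε → P.lex E C (k, t + δ)) ∧
  (P.len' E C (k, t) → ∃ ε > (0 : ℝ), ∀ δ, |δ| < ε → P.len' E C (k, t + δ))

/-- a point of the interval system without successor, which does not leave, hits a vertex;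
similarly backwards -/
def T_L5 : Prop := ∀ (ι : Type) [Finite ι] (P : Polygon ι) (E : Set ι) (C : Set ℂ)
  (z : P.Leg E C × ℝ), (P.la E C z.1 < z.2 ∧ z.2 < P.lb E C z.1) →
  (¬ P.lex E C z → (∀ z', ¬ P.lst E C z z') →
    ∃ w τ, P.VHit (P.lz E C z).2.1 (P.lz E C z).2.2 w τ) ∧
  (¬ P.len' E C z → (∀ z', ¬ P.lst E C z' z) →
    ∃ w τ, P.VHit (P.lz E C z).2.1 (- P.refl (P.lz E C z).1 (P.lz E C z).2.2) w τ)

/-- finiteness of the singular sets -/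
def T_L6 : Prop := ∀ (ι : Type) [Finite ι] (P : Polygon ι) (E : Set ι) (C : Set ℂ), C.Finite →
  {z : P.Leg E C × ℝ | (P.la E C z.1 < z.2 ∧ z.2 < P.lb E C z.1) ∧ ¬ P.lex E C z ∧
    ∀ z', ¬ P.lst E C z z'}.Finite ∧
  {z : P.Leg E C × ℝ | (P.la E C z.1 < z.2 ∧ z.2 < P.lb E C z.1) ∧ ¬ P.len' E C z ∧
    ∀ z', ¬ P.lst E C z' z}.Finite ∧ Finite (P.Leg E C)

/-- unfolding of a chain -/
def T_L7 : Prop := ∀ (ι : Type) (P : Polygon ι) (n : ℕ) (f : ℕ → ι × ℂ × ℂ),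
  (∀ m < n, P.GStep (f m) (f (m + 1))) → ∀ w' τ, P.VHit (f n).2.1 (f n).2.2 w' τ →
    ∃ (l : List ι) (T : ℝ), 0 < T ∧ P.affL l w' = (f 0).2.1 + (T : ℂ) * (f 0).2.2

/-- the interval system as a `HoleSys` without saddle chains, in one statement -/
def T_L8 : Prop := ∀ (ι : Type) [Finite ι] (P : Polygon ι) (E : Set ι) (C : Set ℂ), C.Finite →
  (∀ v ∈ C, v ∉ P.DD) → ∃ S : HoleSys (P.Leg E C),
    S.a = P.la E C ∧ S.b = P.lb E C ∧ S.st = P.lst E C ∧ S.ex = P.lex E C ∧ S.en = P.len' E C ∧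
    ∀ n z z', S.chain n z z' → S.sb z → S.sf z' → False

/-- the set `W` of trapped legs -/
def T_D1 : Prop := ∀ (ι : Type) [Finite ι] (P : Polygon ι) (E : Set ι) (C : Set ℂ), C.Finite →
  (∀ v ∈ C, v ∉ P.DD) → ∃ W : Set (ι × ℂ),
    (∀ j v, (j, v) ∈ W → j ∉ E ∧ v ∈ C ∧ P.refl j v ∈ C ∧ ‖v‖ = 1 ∧ 0 < ip v (P.n j)) ∧
    (∀ j x v j' x' v', P.GStep (j, x, v) (j', x', v') → ((j, v) ∈ W ↔ (j', v') ∈ W)) ∧
    (∀ f : ℤ → ι × ℂ × ℂ,
      (∀ n, P.GStep (f n) (f (n + 1)) ∧ (f n).1 ∉ E ∧ (f n).2.2 ∈ C) →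
        ∀ n, ((f n).1, (f n).2.2) ∈ W)

/-- the topological argument -/
def T_D2 : Prop := ∀ (ι : Type) [Finite ι] (P : Polygon ι) (E : Set ι) (C : Set ℂ), E.Nonempty →
  (∀ v ∈ C, v ∉ P.DD) → ∀ W : Set (ι × ℂ),
    (∀ j v, (j, v) ∈ W → j ∉ E ∧ v ∈ C ∧ P.refl j v ∈ C ∧ ‖v‖ = 1 ∧ 0 < ip v (P.n j)) →
    (∀ j x v j' x' v', P.GStep (j, x, v) (j', x', v') → ((j, v) ∈ W ↔ (j', v') ∈ W)) →
    W = ∅

/-- Theorem D: an orbit avoiding `E ≠ ∅` cannot have its directions in a finite set `C` without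
directions of generalized diagonals -/
def T_D : Prop := ∀ (ι : Type) [Finite ι] (P : Polygon ι) (E : Set ι) (C : Set ℂ), E.Nonempty →
  C.Finite → (∀ v ∈ C, v ∉ P.DD) → ∀ f : ℤ → ι × ℂ × ℂ,
    (∀ n, P.GStep (f n) (f (n + 1)) ∧ (f n).1 ∉ E ∧ (f n).2.2 ∈ C) → False

/-- countability -/
def T_CD : Prop := ∀ (ι : Type) [Finite ι] (P : Polygon ι), P.DDp.Countable ∧ P.DD ⊆ P.DDp ∧
  ∀ i v, P.refl i v ∈ P.DDp ↔ v ∈ P.DDp

/-! ## Bridge between phase coordinates and geometric coordinates -/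

def T_B1 : Prop := ∀ (ι : Type) (P : Polygon ι) (z z' : ι × ℝ × ℝ),
  (P.Phase z → P.inn z.1 (P.pos z) (P.dir z)) ∧
  (P.Phase z → P.Phase z' → z.1 = z'.1 → P.pos z = P.pos z' → P.dir z = P.dir z' → z = z') ∧
  (P.Step z z' ↔ P.Phase z ∧ P.Phase z' ∧
    P.GStep (z.1, P.pos z, P.dir z) (z'.1, P.pos z', P.dir z'))

def T_B2 : Prop := ∀ (ι : Type) (P : Polygon ι) (j : ι) (x v : ℂ), P.inn j x v →
  ∃ s φ : ℝ, P.Phase (j, s, φ) ∧ P.pos (j, s, φ) = x ∧ P.dir (j, s, φ) = v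

def T_B3 : Prop := ∀ (ι : Type) (P : Polygon ι) (z z' z'' : ι × ℝ × ℝ),
  (P.Step z z' → P.Step z z'' → z' = z'') ∧
  (P.Step z z'' → P.Step z' z'' → z = z') ∧
  (P.Step z z' → P.Step (z'.1, z'.2.1, -z'.2.2) (z.1, z.2.1, -z.2.2))

/-- from a hit to a step -/
def T_B4 : Prop := ∀ (ι : Type) (P : Polygon ι) (z : ι × ℝ × ℝ) (j : ι) (t : ℝ), P.Phase z →
  P.Hit (P.pos z) (P.dir z) j t → ∃ z', P.Step z z' ∧ z'.1 = j

/-! ## Finiteness of the directions -/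

def T_RA : Prop := ∀ (ι : Type) [Finite ι] (P : Polygon ι) (E : Set ι),
  (∀ i, i ∉ E → ∀ j, j ∉ E → ∃ m : ℕ, 0 < m ∧ (P.u i / P.u j) ^ m = 1) →
  ∀ f : ℤ → ι × ℝ × ℝ, (∀ n, P.Step (f n) (f (n + 1)) ∧ (f n).1 ∉ E) →
    (Set.range fun n => P.dir (f n)).Finite

/-- an orbit avoiding `E` does not graze -/
def T_SA : Prop := ∀ (ι : Type) (P : Polygon ι) (E : Set ι) (j : ι), P.Grazing E j →
  ∃ m : ℝ, 0 < m ∧ m < 1 ∧ ∀ f : ℤ → ι × ℝ × ℝ, (∀ n, P.Step (f n) (f (n + 1)) ∧ (f n).1 ∉ E) →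
    ∀ n, (f n).1 = j → |Real.sin (f n).2.2| ≤ m

/-- density of the powers of a unit number which is not a root of unity -/
def T_SB : Prop := ∀ (z ζ : ℂ) (m : ℝ), ‖z‖ = 1 → ‖ζ‖ = 1 → (∀ n : ℕ, 0 < n → z ^ n ≠ 1) →
  m < 1 → (∃ k : ℕ, m < (ζ * z ^ k).re) ∧ (∃ k : ℕ, 0 < k ∧ m < (ζ * (starRingEnd ℂ z) ^ k).re)

/-- the set of directions of level `k` -/
def lev (c r v : ℂ) (k : ℤ) : Set ℂ :=
  {w | w = r ^ k * v ∨ w = -(r ^ k * v) ∨ w = c * r ^ (-k) * (starRingEnd ℂ) v ∨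
    w = -(c * r ^ (-k) * (starRingEnd ℂ) v)}

/-- one reflection changes the level by at most one, and a change of level is governed by the
grazing quantity -/
def T_SC : Prop := ∀ (ι : Type) (P : Polygon ι) (j : ι) (c r v w : ℂ) (k : ℤ), ‖c‖ = 1 → ‖r‖ = 1 →
  ‖v‖ = 1 → w ∈ lev c r v k →
  (P.u j ^ 2 = c ∨ P.u j ^ 2 = -c → P.refl j w ∈ lev c r v k) ∧
  (P.u j ^ 2 = r * c ∨ r * P.u j ^ 2 = c →
    (P.refl j w ∈ lev c r v (k + 1) ∧
      2 * ip w (P.u j) ^ 2 - 1 = ((starRingEnd ℂ) c * v ^ 2 * r ^ (2 * k + 1)).re) ∨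
    (P.refl j w ∈ lev c r v (k - 1) ∧
      2 * ip w (P.u j) ^ 2 - 1 = ((starRingEnd ℂ) c * v ^ 2 * r ^ (2 * k - 1)).re))

/-- finiteness of directions in the slanted case -/
def T_SD : Prop := ∀ (ι : Type) [Finite ι] (P : Polygon ι) (E : Set ι) (c r : ℂ), ‖c‖ = 1 →
  ‖r‖ = 1 → (∀ j, j ∉ E → P.u j ^ 2 = c ∨ P.u j ^ 2 = -c ∨
    ((P.u j ^ 2 = r * c ∨ r * P.u j ^ 2 = c) ∧ P.Grazing E j)) →
  ∀ f : ℤ → ι × ℝ × ℝ, (∀ n, P.Step (f n) (f (n + 1)) ∧ (f n).1 ∉ E) →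
    (Set.range fun n => P.dir (f n)).Finite

/-! ## Measure -/

/-- the phase space of one side -/
def Polygon.box {ι : Type} (P : Polygon ι) (i : ι) : Set (ℝ × ℝ) :=
  Ioo 0 (P.len i) ×ˢ Ioo (-(Real.pi / 2)) (Real.pi / 2)

/-- null sets -/
def T_M0 : Prop := ∀ (ι : Type) (P : Polygon ι) (i : ι) (N : Set (ℝ × ℝ)),
  (P.liouville i N = 0 ↔ volume (N ∩ P.box i) = 0) ∧
  (P.liouville i N = 0 → P.liouville i {z | (z.1, -z.2) ∈ N} = 0) ∧
  (MeasurableSet N → P.liouville i N = ∫⁻ z in N ∩ P.box i, ENNReal.ofReal (Real.cos z.2)) ∧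
  P.liouville i Set.univ < ⊤

/-- almost every phase point has a successor and a predecessor -/
def T_M1 : Prop := ∀ (ι : Type) [Finite ι] (P : Polygon ι) (i : ι),
  (∀ᵐ z ∂(P.liouville i), ∃ z', P.Step (i, z) z') ∧
  (∀ᵐ z ∂(P.liouville i), ∃ z', P.Step z' (i, z))

/-- the cells of the map are open -/
def T_M2 : Prop := ∀ (ι : Type) [Finite ι] (P : Polygon ι) (i j : ι),
  IsOpen {z : ℝ × ℝ | ∃ z', P.Step (i, z) (j, z')} ∧
  IsOpen {z' : ℝ × ℝ | ∃ z, P.Step (i, z) (j, z')}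

/-- the inverse branch is given by an explicit formula -/
def T_M3 : Prop := ∀ (ι : Type) (P : Polygon ι) (i j : ι), ∃ α : ℝ, ∃ g : ℝ → ℝ,
  ContDiff ℝ 1 g ∧
  ∀ s φ s' φ' : ℝ, P.Step (i, s, φ) (j, s', φ') →
    φ = α - φ' ∧ s = (g φ' - s' * Real.cos φ') / Real.cos (α - φ')

/-- measure inequality for one cell -/
def T_M4 : Prop := ∀ (ι : Type) [Finite ι] (P : Polygon ι) (i j : ι) (B : Set (ℝ × ℝ)),
  MeasurableSet B →
  P.liouville i {z | ∃ z' ∈ B, P.Step (i, z) (j, z')} ≤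
    P.liouville j (B ∩ {z' | ∃ z, P.Step (i, z) (j, z')})

/-- measure inequality -/
def T_M5 : Prop := ∀ (ι : Type) [Fintype ι] (P : Polygon ι) (B : ι → Set (ℝ × ℝ)),
  (∀ i, MeasurableSet (B i)) →
  ∑ i, P.liouville i {z | ∃ z', P.Step (i, z) z' ∧ z'.2 ∈ B z'.1} ≤ ∑ i, P.liouville i (B i)

/-- preimages and images of null sets are null -/
def T_M6 : Prop := ∀ (ι : Type) [Fintype ι] (P : Polygon ι) (N : ι → Set (ℝ × ℝ)),
  (∀ i, P.liouville i (N i) = 0) →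
  (∀ i, P.liouville i {z | ∃ z', P.Step (i, z) z' ∧ z'.2 ∈ N z'.1} = 0) ∧
  (∀ i, P.liouville i {z | ∃ z', P.Step z' (i, z) ∧ z'.2 ∈ N z'.1} = 0)

/-- almost every phase point has a two sided orbit which never meets a given null set -/
def T_M7 : Prop := ∀ (ι : Type) [Fintype ι] (P : Polygon ι) (N : ι → Set (ℝ × ℝ)),
  (∀ i, P.liouville i (N i) = 0) →
  ∀ i, ∀ᵐ z ∂(P.liouville i), ∃ f : ℤ → ι × ℝ × ℝ, f 0 = (i, z) ∧
    ∀ n, P.Step (f n) (f (n + 1)) ∧ (f n).2 ∉ N (f n).1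

/-- a countable set of directions is met by a null set of phase points -/
def T_M8 : Prop := ∀ (ι : Type) (P : Polygon ι) (D : Set ℂ), D.Countable → ∀ i,
  P.liouville i {z | P.dir (i, z) ∈ D} = 0

/-- almost every point outside an invariant set containing the sides of `E` has a two sided orbit
outside the set, avoiding `E`, with good directions -/
def T_M9 : Prop := ∀ (ι : Type) [Fintype ι] (P : Polygon ι) (E : Set ι) (X : ι → Set (ℝ × ℝ)),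
  P.Invariant X → (∀ e ∈ E, P.liouville e (X e)ᶜ = 0) →
  ∀ i, ∀ᵐ z ∂(P.liouville i), z ∉ X i → ∃ f : ℤ → ι × ℝ × ℝ, f 0 = (i, z) ∧
    ∀ n, P.Step (f n) (f (n + 1)) ∧ (f n).2 ∉ X (f n).1 ∧ (f n).1 ∉ E ∧ P.dir (f n) ∉ P.DDp

/-! ## The killing step -/

/-- monotonicity of the momentum -/
def T_K1 : Prop := ∀ (ι : Type) (P : Polygon ι) (w : ℂ) (ω : ℝ) (z z' : ι × ℝ × ℝ),
  P.Step z z' →
  ip (w + (ω : ℂ) * (Complex.I * P.pos z')) (P.dir z') =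
    ip (w + (ω : ℂ) * (Complex.I * P.pos z)) (P.dir z) +
      2 * Real.cos z'.2.2 * ip (w + (ω : ℂ) * (Complex.I * P.pos z')) (P.n z'.1)

/-- an affine function which is nonnegative on a side and positive somewhere inside is positive
inside -/
def T_K2 : Prop := ∀ (ι : Type) (P : Polygon ι) (w : ℂ) (ω : ℝ) (j : ι),
  (∀ x ∈ segment ℝ (P.p j) (P.q j), 0 ≤ ip (w + (ω : ℂ) * (Complex.I * x)) (P.n j)) →
  (∃ x ∈ openSegment ℝ (P.p j) (P.q j), 0 < ip (w + (ω : ℂ) * (Complex.I * x)) (P.n j)) →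
  ∀ x ∈ openSegment ℝ (P.p j) (P.q j), 0 < ip (w + (ω : ℂ) * (Complex.I * x)) (P.n j)

/-- the killing step -/
def T_K3 : Prop := ∀ (ι : Type) [Fintype ι] (P : Polygon ι) (E : Set ι) (X : ι → Set (ℝ × ℝ)),
  (∀ i, MeasurableSet (X i)) → P.Invariant X → (∀ e ∈ E, P.liouville e (X e)ᶜ = 0) →
  ∀ (w : ℂ) (ω : ℝ), (∀ j, j ∉ E → ∀ x ∈ segment ℝ (P.p j) (P.q j),
    0 ≤ ip (w + (ω : ℂ) * (Complex.I * x)) (P.n j)) →
  ∀ j, (∃ x ∈ openSegment ℝ (P.p j) (P.q j),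
    0 < ip (w + (ω : ℂ) * (Complex.I * x)) (P.n j)) → P.liouville j (X j)ᶜ = 0

/-! ## Corners and the corollaries -/

/-- thin triangles at a convex corner at the end point of `j` -/
def T_C1 : Prop := ∀ (ι : Type) [Finite ι] (P : Polygon ι) (j e : ι), P.Corner j e →
  ∃ m < (1 : ℝ), ∀ x ∈ openSegment ℝ (P.p j) (P.q j), ∀ v : ℂ, ‖v‖ = 1 → 0 < ip v (P.n j) →
    m < ip v (P.u j) → ∃ t, P.Hit x v e t

/-- the mirror image of a polygon -/
def T_C2 : Prop := ∀ (ι : Type) [Finite ι] (P : Polygon ι) (j e : ι), P.Corner e j →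
  ∃ m < (1 : ℝ), ∀ x ∈ openSegment ℝ (P.p j) (P.q j), ∀ v : ℂ, ‖v‖ = 1 → 0 < ip v (P.n j) →
    m < - ip v (P.u j) → ∃ t, P.Hit x v e t

/-- convex corners are grazing -/
def T_C3 : Prop := ∀ (ι : Type) [Finite ι] (P : Polygon ι) (E : Set ι) (j e : ι), e ∈ E →
  P.Corner j e ∨ P.Corner e j → P.Grazing E j

/-- a simple criterion for convex corners -/
def T_C4 : Prop := ∀ (ι : Type) [Finite ι] (P : Polygon ι) (j e : ι), P.q j = P.p e →
  0 < cr (P.u j) (P.u e) →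
  (∀ i, i ≠ j → i ≠ e → P.q j ∉ segment ℝ (P.p i) (P.q i)) → P.Corner j e

/-- the corners of a convex quadrilateral -/
def T_C5 : Prop := ∀ P : Polygon (Fin 4), (∀ i, P.q i = P.p (i + 1)) →
  (∀ i, 0 < cr (P.u i) (P.u (i + 1))) → ∀ i, P.Corner i (i + 1)

def T_TRI : Prop := ∀ P : Polygon (Fin 3), (∀ i, P.q i = P.p (i + 1)) →
  0 < cr (P.u 0) (P.u 1) → ∀ i, P.Good {i}

def T_QUAD : Prop := ∀ P : Polygon (Fin 4), (∀ i, P.q i = P.p (i + 1)) →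
  (∀ i, 0 < cr (P.u i) (P.u (i + 1))) →
    ∀ i, (0 ≤ cr (P.u (i + 1)) (P.u (i + 3)) ∨ ip (P.u (i + 1)) (P.u (i + 2)) = 0 ∨
      ip (P.u (i + 2)) (P.u (i + 3)) = 0 ∨
      ip (P.u (i + 1)) (P.u (i + 2)) = ip (P.u (i + 2)) (P.u (i + 3))) → P.Good {i}

/-- the general part of the statement -/
def T_GEN : Prop := ∀ (ι : Type) [Fintype ι] (P : Polygon ι) (E : Set ι)
    (X : ι → Set (ℝ × ℝ)), E.Nonempty → (∀ i, MeasurableSet (X i)) → P.Invariant X →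
    (∀ e ∈ E, P.liouville e (X e)ᶜ = 0) →
      (∀ i, ∀ᵐ z ∂(P.liouville i), z ∉ X i → (P.dirs (i, z)).Infinite) ∧
      (P.Good E → ∀ i, P.liouville i (X i)ᶜ = 0)

end Pool.Agent.H93.BL
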